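import Pool.Agent.Lib.H68T.Defs
import Pool.Agent.Lib.GoldbachGraph.Proportion

/-!
# Project H96G (MP_443e5f_co, project T, module G): from the kernel estimates to the graph

`GIn n M L c B b` is the input at the size `n`: scales are multiples of `M`, `L X` is the model of the primes on
`[X, 4X]`, power savings `c`, base scales `Z ≥ n^(1-B)`, losses `n^(-b)`, `100 b ≤ B`, `100 B ≤ c`.

The graph is `HL lo n` (halved coordinates, `lo = 0` or `1`): `x`, `y` in `[lo, n]` are adjacent iff `x + y` and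
`|x - y|` are odd primes (`hadj x y`).
-/

open Finset

namespace Pool.Agent.Lib.H96G

open Pool.Agent.Lib.H68T (lp)
open Pool.Agent.Lib.GoldbachGraph (hadj hadj_comm)

noncomputable section

/-- The kernel of the primes. -/
def kp (x y : ℕ) : ℝ := lp ((x : ℤ) + y) * lp ((x : ℤ) - y)

/-- The kernel of the model `l`. -/
def km (l : ℤ → ℝ) (x y : ℕ) : ℝ := l ((x : ℤ) + y) * l ((x : ℤ) - y)

/-- The halved graph on `[lo, n]`. -/
def HL (lo n : ℕ) : SimpleGraph ℕ where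
  Adj x y := hadj x y ∧ x ∈ Finset.Icc lo n ∧ y ∈ Finset.Icc lo n
  symm := ⟨fun _ _ h => ⟨(hadj_comm _ _).mp h.1, h.2.2, h.2.1⟩⟩
  loopless := ⟨fun x h => by
    have := h.1.2.2.1
    rw [Nat.dist_self] at this
    exact Nat.not_prime_zero this⟩

/-- Same type: same parity, and both or none divisible by `3`. -/
def ST (x y : ℕ) : Prop := x % 2 = y % 2 ∧ (3 ∣ x ↔ 3 ∣ y)

/-- Opposite type: different parity, and exactly one divisible by `3`. -/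
def OT (x y : ℕ) : Prop := x % 2 ≠ y % 2 ∧ (3 ∣ x ↔ ¬ 3 ∣ y)

/-- `X` is a scale for `x ∈ [2X, 3X)` and `Z` one for `y ∈ [Z, 2Z)`. -/
structure Sc (n M : ℕ) (B : ℝ) (X Z : ℕ) : Prop where
  dX : M ∣ X
  dZ : M ∣ Z
  lo : (n : ℝ) ^ (1 - B) ≤ Z
  le : 2 * Z ≤ X
  hi : X ≤ n

open Classical in
/-- The input of module G. -/
structure GIn (n M : ℕ) (L : ℕ → ℤ → ℝ) (c B b : ℝ) : Prop where
  b_pos : 0 < b
  hb : 100 * b ≤ B
  hB : 100 * B ≤ c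
  hc : c ≤ 1
  M1 : 1 ≤ M
  Mn : (M : ℝ) ≤ (n : ℝ) ^ (1 / 2 : ℝ)
  bd : ∀ X Z : ℕ, Sc n M B X Z → ∀ m : ℤ, (X : ℤ) ≤ m → m ≤ 4 * X → |L X m| ≤ (n : ℝ) ^ b
  op : ∀ X Z : ℕ, Sc n M B X Z → ∀ f g : ℕ → ℝ, (∀ x, |f x| ≤ 1) → (∀ y, |g y| ≤ 1) →
    |∑ x ∈ Ico (2 * X) (3 * X), ∑ y ∈ Ico Z (2 * Z), f x * g y * (kp x y - km (L X) x y)| ≤
      (n : ℝ) ^ (2 - c)
  m4 : ∀ X X' Z : ℕ, Sc n M B X Z → Sc n M B X' Z →
    (((Ico (2 * X) (3 * X) ×ˢ Ico (2 * X') (3 * X')).filter fun p => ST p.1 p.2 ∧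
      ∑ y ∈ Ico Z (2 * Z), km (L X) p.1 y * km (L X') p.2 y < Z * (n : ℝ) ^ (-b)).card : ℝ) ≤
      (n : ℝ) ^ (2 - c)
  m3 : ∀ X Z : ℕ, Sc n M B X Z →
    (((Ico (2 * X) (3 * X)).filter fun x => 3 ∣ x ∧
      ∑ y ∈ Ico Z (2 * Z), km (L X) x y * lp (2 * (y : ℤ) - 3) < Z * (n : ℝ) ^ (-b)).card : ℝ) ≤
      (n : ℝ) ^ (1 - c)

/-- `n` is large for the exponent `b`. -/
structure Nm (n : ℕ) (b : ℝ) : Prop where
  b_pos : 0 < b
  n_pos : 1 ≤ n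
  big : 10 ^ 6 * (Real.log (8 * n)) ^ 6 ≤ (n : ℝ) ^ (b / 2)

/-- Mixed correlation: primes at `x`, model at `x'`. -/
def dx (l' : ℤ → ℝ) (Z x x' : ℕ) : ℝ := ∑ y ∈ Ico Z (2 * Z), kp x y * km l' x' y

open Classical in
/-- The vertices `x' ∈ [2X', 3X')` of the type of `x` with small mixed correlation. -/
def bad (n : ℕ) (L : ℕ → ℤ → ℝ) (b : ℝ) (X' Z x : ℕ) : Finset ℕ :=
  (Ico (2 * X') (3 * X')).filter fun x' => ST x x' ∧ dx (L X') Z x x' < Z * (n : ℝ) ^ (-b) / 2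

/-- Neighbours of `x` in `[Z, 2Z)`. -/
def nb (Z x : ℕ) : Finset ℕ := (Ico Z (2 * Z)).filter fun y => hadj x y

/-- Neighbours `y` of `x` in `[Z, 2Z)` for which `2y-3` is a prime (then `y - 3` is a neighbour of `y`). -/
def nb3 (Z x : ℕ) : Finset ℕ := (Ico Z (2 * Z)).filter fun y => hadj x y ∧ (2 * y - 3).Prime

open Classical in
/-- The vertices of the type of `x` in `I` without a common neighbour with `x` in `[Z, 2Z)`. -/
def far (Z x : ℕ) (I : Finset ℕ) : Finset ℕ :=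
  I.filter fun x' => ST x x' ∧ ¬ ∃ y ∈ Ico Z (2 * Z), hadj x y ∧ hadj x' y

/-- `Γ` is a set of generic vertices of `[4Z, n]` for the base scale `Z`. -/
structure PZ (n Z : ℕ) (s t : ℝ) (Γ : Finset ℕ) : Prop where
  sub : Γ ⊆ Icc (4 * Z) n
  co : ((Icc (4 * Z) n \ Γ).card : ℝ) ≤ s
  al : ∀ u ∈ Γ, t ≤ (nb Z u).card
  be : ∀ u ∈ Γ, ((far Z u (Icc (4 * Z) n)).card : ℝ) ≤ s
  ga : ∀ u ∈ Γ, 3 ∣ u → t ≤ (nb3 Z u).card

end

end Pool.Agent.Lib.H96G
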