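import Pool.Agent.Lib.Goldbach.Defs
import Pool.Agent.Lib.GoldbachGraph.Proportion

/-!
# Project H96G: degrees of the Goldbach graphs (copy of three lemmas of `H18GB/Transfer.lean`, in order to have
fewer imports)
-/

namespace Pool.Agent.Lib.H96G.Tr

open Finset Pool.Agent.Goldbach Pool.Agent.Lib.GoldbachGraph

section

variable {V S : Set ℕ} {n : ℕ}

theorem finite_of_le (hV : ∀ a ∈ V, Even a ∧ a ≤ 2 * n) : V.Finite :=
  (Set.finite_Iic (2 * n)).subset fun a ha => (hV a ha).2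

/-- degrees -/
theorem deg_le (hV : ∀ a ∈ V, Even a ∧ a ≤ 2 * n)
    (hS' : ∀ m ∈ S, m = 1 ∨ (m.Prime ∧ Odd m)) (x : ℕ) (hx : 2 * x ∈ V) :
    ((halfGraph V S).neighborSet ⟨2 * x, hx⟩).ncard ≤ hdeg n x + 4 := by
  have : Finite V := finite_of_le hV
  set T : Finset ℕ := ((Finset.Icc 1 n).filter fun u => hadj x u) ∪ {0, 1 - x, x + 1, x - 1}
    with hT
  have hTcard : T.card ≤ hdeg n x + 4 :=
    (Finset.card_union_le _ _).trans (Nat.add_le_add_left Finset.card_le_four _)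
  refine le_trans ?_ hTcard
  rw [← Set.ncard_coe_finset]
  apply Set.ncard_le_ncard_of_injOn (fun b : V => (b : ℕ) / 2)
  · rintro ⟨b, hb⟩ hadj1
    obtain ⟨⟨s, hs⟩, hbn⟩ := hV b hb
    have hbs : b = 2 * s := by omega
    subst hbs
    rw [SimpleGraph.mem_neighborSet, halfGraph_adj_iff (x := x) (y := s) rfl rfl] at hadj1
    obtain ⟨h1, h2, h3⟩ := hadj1
    simp only [Nat.mul_div_cancel_left _ (by norm_num : 0 < 2)]
    rw [Finset.mem_coe, hT, Finset.mem_union, Finset.mem_filter, Finset.mem_Icc]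
    by_cases hs0 : s = 0
    · right; simp [hs0]
    by_cases h4 : x + s = 1
    · right
      simp only [Finset.mem_insert, Finset.mem_singleton]
      omega
    by_cases h5 : ((x : ℤ) - s).natAbs = 1
    · right
      simp only [Finset.mem_insert, Finset.mem_singleton]
      omega
    left
    have hd : ((x : ℤ) - s).natAbs = Nat.dist x s := by
      unfold Nat.dist
      omega
    rw [hd] at h3 h5
    obtain ⟨h6, h7⟩ := (hS' _ h2).resolve_left h4
    obtain ⟨h8, h9⟩ := (hS' _ h3).resolve_left h5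
    exact ⟨⟨by omega, by omega⟩, h6, h7, h8, h9⟩
  · rintro ⟨b, hb⟩ - ⟨b', hb'⟩ - hbb
    have h1 := (hV b hb).1
    have h2 := (hV b' hb').1
    simp only at hbb
    ext
    simp only
    obtain ⟨k, hk⟩ := h1
    obtain ⟨l, hl⟩ := h2
    omega

theorem le_deg (hV : ∀ a ∈ V, Even a ∧ a ≤ 2 * n) (hV2 : ∀ x ∈ Finset.Icc 1 n, 2 * x ∈ V)
    (hS : ∀ m, m.Prime → Odd m → m < 2 * n → m ∈ S) (x : ℕ) (hx1 : x ∈ Finset.Icc 1 n)
    (hx : 2 * x ∈ V) :
    hdeg n x ≤ ((halfGraph V S).neighborSet ⟨2 * x, hx⟩).ncard := by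
  have : Finite V := finite_of_le hV
  unfold hdeg
  rw [← Set.ncard_coe_finset]
  have hfin : ((halfGraph V S).neighborSet ⟨2 * x, hx⟩).Finite := Set.toFinite _
  refine le_trans ?_ (Set.ncard_image_le (f := fun b : V => (b : ℕ) / 2) hfin)
  apply Set.ncard_le_ncard _ (hfin.image _)
  intro u hu
  rw [Finset.mem_coe, Finset.mem_filter] at hu
  obtain ⟨hu1, a1, a2, a3, a4⟩ := hu
  refine ⟨⟨2 * u, hV2 u hu1⟩, ?_, ?_⟩
  · rw [SimpleGraph.mem_neighborSet, halfGraph_adj_iff (x := x) (y := u) rfl rfl]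
    rw [Finset.mem_Icc] at hu1 hx1
    have hne : x ≠ u := by
      rintro rfl
      rw [Nat.dist_self] at a3
      exact Nat.not_prime_zero a3
    have hd : ((x : ℤ) - u).natAbs = Nat.dist x u := by
      unfold Nat.dist
      omega
    refine ⟨hne, hS _ a1 a2 (by omega), ?_⟩
    rw [hd]
    refine hS _ a3 a4 ?_
    unfold Nat.dist
    omega
  · simp

end

end Pool.Agent.Lib.H96G.Tr
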