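import Pool.Agent.Lib.H96G.Num

/-!
# Project H96G, chunk A1 (S/M): elementary bounds for the kernels
-/

open Finset

namespace Pool.Agent.Lib.H96G

open Pool.Agent.Lib.H68T (lp)
open Pool.Agent.Lib.GoldbachGraph (hadj)

/-- Proof. Definition of `lp`; `log m ≥ 0` for `m ≥ 2`. -/
theorem a1_lp_nonneg (m : ℤ) : 0 ≤ lp m := by
  unfold Pool.Agent.Lib.H68T.lp
  split_ifs with h
  · have h1 := h.two_le
    have h2 : (1 : ℤ) ≤ m := by omega
    exact Real.log_nonneg (by exact_mod_cast h2)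
  · exact le_refl 0

/-- Proof. Definition of `lp`, monotonicity of `log`; `log (8 n) ≥ 0`. -/
theorem a1_lp_le (n : ℕ) (hn : 1 ≤ n) (m : ℤ) (hm : m ≤ 8 * n) : lp m ≤ Real.log (8 * n) := by
  have hn1 : (1 : ℝ) ≤ n := by exact_mod_cast hn
  unfold Pool.Agent.Lib.H68T.lp
  split_ifs with h
  · have h1 := h.two_le
    have h2 : (0 : ℤ) < m := by omega
    have h3 : (m : ℝ) ≤ 8 * n := by exact_mod_cast hm
    exact Real.log_le_log (by exact_mod_cast h2) h3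
  · exact Real.log_nonneg (by linarith)

theorem a1_kp_nonneg (x y : ℕ) : 0 ≤ kp x y :=
  mul_nonneg (a1_lp_nonneg _) (a1_lp_nonneg _)

/-- Proof. `x + y < 4 X ≤ 4 n`, `a1_lp_le` twice. -/
theorem a1_kp_le {n M : ℕ} {B : ℝ} {X Z : ℕ} (hn : 1 ≤ n) (h : Sc n M B X Z) {x y : ℕ}
    (hx : x ∈ Ico (2 * X) (3 * X)) (hy : y ∈ Ico Z (2 * Z)) :
    kp x y ≤ (Real.log (8 * n)) ^ 2 := by
  have h1 := Finset.mem_Ico.1 hx
  have h2 := Finset.mem_Ico.1 hy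
  have h3 := h.le
  have h4 := h.hi
  have k1 := a1_lp_le n hn ((x : ℤ) + y) (by omega)
  have k2 := a1_lp_le n hn ((x : ℤ) - y) (by omega)
  unfold kp
  rw [sq]
  exact mul_le_mul k1 k2 (a1_lp_nonneg _) ((a1_lp_nonneg _).trans k1)

/-- Proof. `x ± y ∈ [X, 4X]`, field `bd`, `n^b * n^b = n^(2b)`. -/
theorem a1_km_abs {n M : ℕ} {L : ℕ → ℤ → ℝ} {c B b : ℝ} (hN : Nm n b) (h : GIn n M L c B b)
    {X Z : ℕ} (hs : Sc n M B X Z) {x y : ℕ}
    (hx : x ∈ Ico (2 * X) (3 * X)) (hy : y ∈ Ico Z (2 * Z)) :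
    |km (L X) x y| ≤ (n : ℝ) ^ (2 * b) := by
  have h1 := Finset.mem_Ico.1 hx
  have h2 := Finset.mem_Ico.1 hy
  have h3 := hs.le
  have h4 := hs.hi
  have k1 := h.bd X Z hs ((x : ℤ) + y) (by omega) (by omega)
  have k2 := h.bd X Z hs ((x : ℤ) - y) (by omega) (by omega)
  unfold km
  rw [abs_mul, two_mul, ← hN.mul]
  exact mul_le_mul k1 k2 (abs_nonneg _) (hN.ppos b).le

/-- Proof. If `kp x y ≠ 0` then `x + y` and `x - y` are primes; `x - y > 2X - 2Z ≥ X ≥ 2 Z ≥ 2`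
(`Z ≥ 1` because `Z ≥ n^(1-B) > 0`), so both are odd; `Nat.dist x y = x - y`. -/
theorem a1_kp_hadj {n M : ℕ} {B : ℝ} {X Z : ℕ} (hn : 1 ≤ n) (h : Sc n M B X Z) {x y : ℕ}
    (hx : x ∈ Ico (2 * X) (3 * X)) (hy : y ∈ Ico Z (2 * Z)) (hk : kp x y ≠ 0) : hadj x y := by
  have h1 := Finset.mem_Ico.1 hx
  have h2 := Finset.mem_Ico.1 hy
  have h3 := h.le
  have h4 : 1 ≤ Z := by
    have h5 := h.lo
    have h6 : (0 : ℝ) < (n : ℝ) ^ (1 - B) := Real.rpow_pos_of_pos (by exact_mod_cast hn) _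
    have h7 : (0 : ℝ) < Z := lt_of_lt_of_le h6 h5
    have h8 : 0 < Z := by exact_mod_cast h7
    exact h8
  unfold kp at hk
  have k1 := left_ne_zero_of_mul hk
  have k2 := right_ne_zero_of_mul hk
  have e1 : ((x : ℤ) + y).toNat = x + y := by omega
  have e2 : ((x : ℤ) - y).toNat = x - y := by omega
  have e3 : Nat.dist x y = x - y := Nat.dist_eq_sub_of_le_right (by omega)
  have p1 : (x + y).Prime := by
    by_contra hc
    apply k1
    unfold Pool.Agent.Lib.H68T.lp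
    rw [e1, if_neg hc]
  have p2 : (x - y).Prime := by
    by_contra hc
    apply k2
    unfold Pool.Agent.Lib.H68T.lp
    rw [e2, if_neg hc]
  refine ⟨p1, p1.odd_of_ne_two (by omega), ?_, ?_⟩
  · rw [e3]
    exact p2
  · rw [e3]
    exact p2.odd_of_ne_two (by omega)

/-- Proof. `(2 y - 3 : ℤ).toNat = 2 y - 3` (truncated subtraction). -/
theorem a1_lp3 (y : ℕ) (h : lp (2 * (y : ℤ) - 3) ≠ 0) : (2 * y - 3).Prime := by
  have e : (2 * (y : ℤ) - 3).toNat = 2 * y - 3 := by omega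
  by_contra hc
  apply h
  unfold Pool.Agent.Lib.H68T.lp
  rw [e, if_neg hc]

/-- Proof. `2 y - 3 ≤ 4 Z ≤ 2 X ≤ 2 n`. -/
theorem a1_lp3_le {n M : ℕ} {B : ℝ} {X Z : ℕ} (hn : 1 ≤ n) (h : Sc n M B X Z) {y : ℕ}
    (hy : y ∈ Ico Z (2 * Z)) : lp (2 * (y : ℤ) - 3) ≤ Real.log (8 * n) := by
  have h2 := Finset.mem_Ico.1 hy
  have h3 := h.le
  have h4 := h.hi
  exact a1_lp_le n hn _ (by omega)

/-- Proof. `n^(1-B) > 0`, so `Z ≠ 0`. -/
theorem a1_Z_pos {n M : ℕ} {B : ℝ} {X Z : ℕ} (hn : 1 ≤ n) (h : Sc n M B X Z) : 1 ≤ Z := by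
  have h5 := h.lo
  have h6 : (0 : ℝ) < (n : ℝ) ^ (1 - B) := Real.rpow_pos_of_pos (by exact_mod_cast hn) _
  have h7 : (0 : ℝ) < Z := lt_of_lt_of_le h6 h5
  have h8 : 0 < Z := by exact_mod_cast h7
  exact h8

end Pool.Agent.Lib.H96G
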