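import Pool.Agent.Lib.H96G.A0
import Pool.Agent.Lib.H96G.A1

/-!
# Project H96G, chunk A7 (M/L): two large sets of the same type have a common neighbour of two elements
-/

open Finset

namespace Pool.Agent.Lib.H96G

open Pool.Agent.Lib.GoldbachGraph (hadj)

theorem a7_set {n M : ℕ} {L : ℕ → ℤ → ℝ} {c B b : ℝ} (h : GIn n M L c B b) {X Z : ℕ}
    (hs : Sc n M B X Z) {A : Finset ℕ} (hA : A ⊆ Ico (2 * X) (3 * X)) (g : ℕ → ℝ) (G : ℝ)
    (hG : 0 < G) (hg : ∀ y ∈ Ico Z (2 * Z), |g y| ≤ G) :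
    |∑ x ∈ A, ∑ y ∈ Ico Z (2 * Z), g y * (kp x y - km (L X) x y)| ≤ G * (n : ℝ) ^ (2 - c) := by
  classical
  have e := A0_scale h hs (fun x => if x ∈ A then 1 else 0) g 1 G one_pos hG
    (fun x _ => by
      split_ifs
      · rw [abs_one]
      · rw [abs_zero]; exact zero_le_one) hg
  have e2 : ∑ x ∈ Ico (2 * X) (3 * X), ∑ y ∈ Ico Z (2 * Z),
      (fun x => if x ∈ A then (1 : ℝ) else 0) x * g y * (kp x y - km (L X) x y) =
      ∑ x ∈ A, ∑ y ∈ Ico Z (2 * Z), g y * (kp x y - km (L X) x y) := by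
    rw [← sum_subset hA]
    · refine sum_congr rfl fun x hx => sum_congr rfl fun y _ => ?_
      dsimp only
      rw [if_pos hx, one_mul]
    · intro x _ hx
      refine sum_eq_zero fun y _ => ?_
      dsimp only
      rw [if_neg hx, zero_mul, zero_mul]
  rw [e2, one_mul] at e
  exact e

/-- **A7.** Proof. `l = log (8n)`; `S(p,q) = ∑_{a ∈ A} ∑_{a' ∈ A'} ∑_{y} p a y * q a' y`. Suppose that there are no
such `a, a', y`; then all products `kp a y * kp a' y` vanish (`a1_kp_hadj`) and `S(kp,kp) = 0`.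
(1) `A0_scale` at the scale `X` with `f = 1_A` and `g y = ∑_{a' ∈ A'} kp a' y` (`|g| ≤ |A'| l^2 ≤ n l^2`):
`|S(kp,kp) - S(km,kp)| ≤ n l^2 n^(2-c)`.
(2) `A0_scale` at the scale `X'` with `f = 1_{A'}` and `g y = ∑_{a ∈ A} km (L X) a y` (`|g| ≤ n n^(2b)`):
`|S(km,kp) - S(km,km)| ≤ n n^(2b) n^(2-c)`.
(3) In `S(km,km)` the pairs `(a,a')` outside of the exceptional set of the field `m4` (at most `n^(2-c)` pairs;
all pairs in `A × A'` have the same type) give `≥ Z n^(-b)`, the others `≥ -Z n^(4b)` (`a1_km_abs`), so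
`S(km,km) ≥ |A| |A'| Z n^(-b) - n^(2-c) Z n^(4b) - n^(2-c) Z n^(-b)`.
With `|A|, |A'| ≥ n^(1-2B)`, `n^(1-B) ≤ Z ≤ n`: `S(km,km) ≥ n^(3-5B-b) - 2 n^(3-c+4b)`, and this is larger than
`l^2 n^(3-c) + n^(3-c+2b)` because `c ≥ 100 B`, `B ≥ 100 b`. (Sets inside `Ico (2X) (3X)` have at most `X ≤ n`
elements; `F = 1`, and `G = n l^2`, `G = n n^(2b)`, positive.) -/
theorem A7 {n M : ℕ} {L : ℕ → ℤ → ℝ} {c B b : ℝ} (hN : Nm n b) (h : GIn n M L c B b)
    {X X' Z : ℕ} (hs : Sc n M B X Z) (hs' : Sc n M B X' Z) {A A' : Finset ℕ}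
    (hA : A ⊆ Ico (2 * X) (3 * X)) (hA' : A' ⊆ Ico (2 * X') (3 * X'))
    (hST : ∀ a ∈ A, ∀ a' ∈ A', ST a a') (h1 : (n : ℝ) ^ (1 - 2 * B) ≤ A.card)
    (h2 : (n : ℝ) ^ (1 - 2 * B) ≤ A'.card) :
    ∃ a ∈ A, ∃ a' ∈ A', ∃ y ∈ Ico Z (2 * Z), hadj a y ∧ hadj a' y := by
  classical
  by_contra hcon
  push Not at hcon
  have hn1 : 1 ≤ n := hN.n_pos
  have hnp := hN.pos
  obtain ⟨l, hl⟩ : ∃ l, l = Real.log (8 * n) := ⟨_, rfl⟩
  have hl1 : 1 ≤ l := by rw [hl]; exact hN.ell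
  have hzero : ∀ a ∈ A, ∀ a' ∈ A', ∀ y ∈ Ico Z (2 * Z), kp a' y * kp a y = 0 := by
    intro a ha a' ha' y hy
    by_contra hne
    have g1 := left_ne_zero_of_mul hne
    have g2 := right_ne_zero_of_mul hne
    exact hcon a ha a' ha' y hy (a1_kp_hadj hn1 hs (hA ha) hy g2)
      (a1_kp_hadj hn1 hs' (hA' ha') hy g1)
  have hcard : ∀ {X : ℕ} {A : Finset ℕ}, Sc n M B X Z → A ⊆ Ico (2 * X) (3 * X) →
      (A.card : ℝ) ≤ n := by
    intro X A hs hA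
    have g1 := card_le_card hA
    rw [Nat.card_Ico] at g1
    have g2 := hs.hi
    exact_mod_cast (by omega : A.card ≤ n)
  have hAc := hcard hs hA
  have hAc' := hcard hs' hA'
  -- the three functions of `y`
  obtain ⟨P, hP⟩ : ∃ P : ℕ → ℝ, ∀ y, P y = ∑ a' ∈ A', kp a' y := ⟨_, fun _ => rfl⟩
  obtain ⟨Q, hQ⟩ : ∃ Q : ℕ → ℝ, ∀ y, Q y = ∑ a ∈ A, km (L X) a y := ⟨_, fun _ => rfl⟩
  obtain ⟨R, hR⟩ : ∃ R : ℕ → ℝ, ∀ y, R y = ∑ a' ∈ A', km (L X') a' y := ⟨_, fun _ => rfl⟩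
  have hPb : ∀ y ∈ Ico Z (2 * Z), |P y| ≤ n * l ^ 2 := by
    intro y hy
    rw [hP, abs_of_nonneg (sum_nonneg fun a' _ => a1_kp_nonneg a' y)]
    calc ∑ a' ∈ A', kp a' y ≤ ∑ a' ∈ A', l ^ 2 :=
          sum_le_sum fun a' ha' => by rw [hl]; exact a1_kp_le hn1 hs' (hA' ha') hy
      _ = A'.card * l ^ 2 := by rw [sum_const, nsmul_eq_mul]
      _ ≤ n * l ^ 2 := mul_le_mul_of_nonneg_right hAc' (by positivity)
  have hQb : ∀ y ∈ Ico Z (2 * Z), |Q y| ≤ n * (n : ℝ) ^ (2 * b) := by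
    intro y hy
    rw [hQ]
    calc |∑ a ∈ A, km (L X) a y| ≤ ∑ a ∈ A, |km (L X) a y| := abs_sum_le_sum_abs _ _
      _ ≤ ∑ a ∈ A, (n : ℝ) ^ (2 * b) := sum_le_sum fun a ha => a1_km_abs hN h hs (hA ha) hy
      _ = A.card * (n : ℝ) ^ (2 * b) := by rw [sum_const, nsmul_eq_mul]
      _ ≤ n * (n : ℝ) ^ (2 * b) := mul_le_mul_of_nonneg_right hAc (hN.ppos _).le
  have hG1 : 0 < (n : ℝ) * l ^ 2 := by positivity
  have hG2 : 0 < (n : ℝ) * (n : ℝ) ^ (2 * b) := mul_pos hnp (hN.ppos _)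
  have e1 := a7_set h hs hA P _ hG1 hPb
  have e2 := a7_set h hs' hA' Q _ hG2 hQb
  -- evaluation of the two sums
  have s1 : ∑ x ∈ A, ∑ y ∈ Ico Z (2 * Z), P y * (kp x y - km (L X) x y) =
      -∑ y ∈ Ico Z (2 * Z), P y * Q y := by
    rw [sum_comm, ← sum_neg_distrib]
    refine sum_congr rfl fun y hy => ?_
    rw [hQ, mul_sum, ← sum_neg_distrib]
    refine sum_congr rfl fun a ha => ?_
    have g1 : P y * kp a y = 0 := by
      rw [hP, sum_mul]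
      exact sum_eq_zero fun a' ha' => hzero a ha a' ha' y hy
    rw [mul_sub, g1, zero_sub]
  have s2 : ∑ x ∈ A', ∑ y ∈ Ico Z (2 * Z), Q y * (kp x y - km (L X') x y) =
      ∑ y ∈ Ico Z (2 * Z), P y * Q y - ∑ y ∈ Ico Z (2 * Z), Q y * R y := by
    rw [sum_comm, ← sum_sub_distrib]
    refine sum_congr rfl fun y _ => ?_
    rw [hP, hR, mul_sum, sum_mul, ← sum_sub_distrib]
    refine sum_congr rfl fun a' _ => ?_
    ring
  rw [s1, abs_neg] at e1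
  rw [s2] at e2
  have e3 : ∑ y ∈ Ico Z (2 * Z), Q y * R y ≤
      n * l ^ 2 * (n : ℝ) ^ (2 - c) + n * (n : ℝ) ^ (2 * b) * (n : ℝ) ^ (2 - c) := by
    have g1 := (abs_le.mp e1).2
    have g2 := (abs_le.mp e2).1
    linarith
  -- the sum over pairs
  obtain ⟨s, hsd⟩ : ∃ s : ℕ × ℕ → ℝ, ∀ p, s p =
      ∑ y ∈ Ico Z (2 * Z), km (L X) p.1 y * km (L X') p.2 y := ⟨_, fun _ => rfl⟩
  have s3 : ∑ y ∈ Ico Z (2 * Z), Q y * R y = ∑ p ∈ A ×ˢ A', s p := by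
    rw [sum_congr rfl fun p _ => hsd p, sum_comm]
    refine sum_congr rfl fun y _ => ?_
    rw [hQ, hR, sum_mul_sum, sum_product]
  have hZn : (Z : ℝ) ≤ n := by
    have g1 := hs.le
    have g2 := hs.hi
    exact_mod_cast (by omega : Z ≤ n)
  have hZ0 : (0 : ℝ) ≤ Z := Nat.cast_nonneg _
  have key : ∀ E : Finset (ℕ × ℕ), (∀ p, p ∈ E ↔ p ∈ Ico (2 * X) (3 * X) ×ˢ Ico (2 * X') (3 * X') ∧
      (ST p.1 p.2 ∧ ∑ y ∈ Ico Z (2 * Z), km (L X) p.1 y * km (L X') p.2 y < Z * (n : ℝ) ^ (-b))) →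
      (E.card : ℝ) ≤ (n : ℝ) ^ (2 - c) → False := by
    intro E hE hEc
    obtain ⟨W, hW⟩ : ∃ W : ℝ, W = Z * (n : ℝ) ^ (-b) + Z * (n : ℝ) ^ (4 * b) := ⟨_, rfl⟩
    have hW0 : 0 ≤ W := by
      rw [hW]
      exact add_nonneg (mul_nonneg hZ0 (hN.ppos _).le) (mul_nonneg hZ0 (hN.ppos _).le)
    have g1 : ∀ p ∈ A ×ˢ A', Z * (n : ℝ) ^ (-b) - (if p ∈ E then W else 0) ≤ s p := by
      intro p hp
      rw [mem_product] at hp
      split_ifs with hpE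
      · rw [hW, hsd]
        have g2 : |∑ y ∈ Ico Z (2 * Z), km (L X) p.1 y * km (L X') p.2 y| ≤ Z * (n : ℝ) ^ (4 * b) := by
          calc |∑ y ∈ Ico Z (2 * Z), km (L X) p.1 y * km (L X') p.2 y|
              ≤ ∑ y ∈ Ico Z (2 * Z), |km (L X) p.1 y * km (L X') p.2 y| := abs_sum_le_sum_abs _ _
            _ ≤ ∑ y ∈ Ico Z (2 * Z), (n : ℝ) ^ (4 * b) := by
                refine sum_le_sum fun y hy => ?_
                rw [abs_mul]
                calc |km (L X) p.1 y| * |km (L X') p.2 y| ≤ (n : ℝ) ^ (2 * b) * (n : ℝ) ^ (2 * b) :=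
                      mul_le_mul (a1_km_abs hN h hs (hA hp.1) hy) (a1_km_abs hN h hs' (hA' hp.2) hy)
                        (abs_nonneg _) (hN.ppos _).le
                  _ = (n : ℝ) ^ (4 * b) := by rw [hN.mul]; congr 1; ring
            _ = Z * (n : ℝ) ^ (4 * b) := by
                rw [sum_const, nsmul_eq_mul, Nat.card_Ico]
                congr 2
                omega
        have g3 := (abs_le.mp g2).1
        linarith
      · rw [sub_zero]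
        by_contra hlt
        push Not at hlt
        apply hpE
        rw [hE]
        refine ⟨mem_product.mpr ⟨hA hp.1, hA' hp.2⟩, hST p.1 hp.1 p.2 hp.2, ?_⟩
        rw [← hsd]
        exact hlt
    have g2 := sum_le_sum g1
    rw [sum_sub_distrib, sum_const, card_product, nsmul_eq_mul] at g2
    have g3 : ∑ p ∈ A ×ˢ A', (if p ∈ E then W else 0) ≤ (n : ℝ) ^ (2 - c) * W := by
      rw [← sum_filter, sum_const, nsmul_eq_mul]
      refine mul_le_mul_of_nonneg_right (le_trans ?_ hEc) hW0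
      exact_mod_cast card_le_card fun p hp => (mem_filter.mp hp).2
    have g4 : (n : ℝ) ^ (3 - 5 * B - b) ≤ ((A.card * A'.card : ℕ) : ℝ) * (Z * (n : ℝ) ^ (-b)) := by
      push_cast
      calc (n : ℝ) ^ (3 - 5 * B - b) =
            ((n : ℝ) ^ (1 - 2 * B) * (n : ℝ) ^ (1 - 2 * B)) * ((n : ℝ) ^ (1 - B) * (n : ℝ) ^ (-b)) := by
            rw [hN.mul, hN.mul, hN.mul]
            congr 1
            ring
        _ ≤ ((A.card : ℝ) * A'.card) * (Z * (n : ℝ) ^ (-b)) := by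
            refine mul_le_mul (mul_le_mul h1 h2 (hN.ppos _).le (Nat.cast_nonneg _))
              (mul_le_mul_of_nonneg_right hs.lo (hN.ppos _).le)
              (mul_nonneg (hN.ppos _).le (hN.ppos _).le) (by positivity)
    have g5 : (n : ℝ) ^ (2 - c) * W ≤ (n : ℝ) ^ (3 - c - b) + (n : ℝ) ^ (3 - c + 4 * b) := by
      rw [hW, mul_add]
      have g6 : ∀ t : ℝ, (n : ℝ) ^ (2 - c) * (Z * (n : ℝ) ^ t) ≤ (n : ℝ) ^ (3 - c + t) := by
        intro t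
        calc (n : ℝ) ^ (2 - c) * (Z * (n : ℝ) ^ t) ≤ (n : ℝ) ^ (2 - c) * ((n : ℝ) ^ (1 : ℝ) * (n : ℝ) ^ t) := by
              refine mul_le_mul_of_nonneg_left (mul_le_mul_of_nonneg_right ?_ (hN.ppos _).le) (hN.ppos _).le
              rw [Real.rpow_one]
              exact hZn
          _ = (n : ℝ) ^ (3 - c + t) := by
              rw [hN.mul, hN.mul]
              congr 1
              ring
      have g7 := g6 (-b)
      have g8 := g6 (4 * b)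
      rw [← sub_eq_add_neg] at g7
      linarith
    have hbB := h.hb
    have hBc := h.hB
    have hb0 := h.b_pos
    have k1 : 8 * (n : ℝ) ^ (3 - c - b) ≤ (n : ℝ) ^ (3 - 5 * B - b) :=
      hN.cst (by norm_num) (by linarith)
    have k2 : 8 * (n : ℝ) ^ (3 - c + 4 * b) ≤ (n : ℝ) ^ (3 - 5 * B - b) :=
      hN.cst (by norm_num) (by linarith)
    have k3 : 8 * l ^ 2 * (n : ℝ) ^ (3 - c) ≤ (n : ℝ) ^ (3 - 5 * B - b) := by
      rw [hl]
      exact hN.lg (by norm_num) (by norm_num) (by linarith)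
    have k4 : 8 * (n : ℝ) ^ (3 - c + 2 * b) ≤ (n : ℝ) ^ (3 - 5 * B - b) :=
      hN.cst (by norm_num) (by linarith)
    have k5 : (n : ℝ) * l ^ 2 * (n : ℝ) ^ (2 - c) = l ^ 2 * (n : ℝ) ^ (3 - c) := by
      have : (n : ℝ) ^ (3 - c) = (n : ℝ) ^ (1 : ℝ) * (n : ℝ) ^ (2 - c) := by
        rw [hN.mul]
        congr 1
        ring
      rw [this, Real.rpow_one]
      ring
    have k6 : (n : ℝ) * (n : ℝ) ^ (2 * b) * (n : ℝ) ^ (2 - c) = (n : ℝ) ^ (3 - c + 2 * b) := by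
      have : (n : ℝ) ^ (3 - c + 2 * b) = (n : ℝ) ^ (1 : ℝ) * (n : ℝ) ^ (2 * b) * (n : ℝ) ^ (2 - c) := by
        rw [hN.mul, hN.mul]
        congr 1
        ring
      rw [this, Real.rpow_one]
    have k7 := hN.ppos (3 - 5 * B - b)
    rw [s3, k5, k6] at e3
    linarith
  refine key _ (fun p => mem_filter) (h.m4 X X' Z hs hs')

end Pool.Agent.Lib.H96G
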