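import Pool.Agent.Lib.H96G.A1

/-!
# Project H96G, chunk A4 (M): good vertices have many neighbours
-/

open Finset

namespace Pool.Agent.Lib.H96G

open Pool.Agent.Lib.GoldbachGraph (hadj)

open Classical in
/-- Proof. The interval `[2X', 3X')` has `X'` elements; the class (parity, `3 ∣ ·`) of `x` contains a full class
modulo `6` (the integers `≡ x` modulo `6` have the type of `x`), so at least `X'/6 - 1` elements. -/
theorem A4_class (X' x : ℕ) : (X' : ℝ) / 6 - 1 ≤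
    (((Ico (2 * X') (3 * X')).filter fun x' => ST x x').card : ℝ) := by
  have hr : (x + 10 * X') % 6 < 6 := Nat.mod_lt _ (by norm_num)
  have h1 : (range (X' / 6)).card ≤ ((Ico (2 * X') (3 * X')).filter fun x' => ST x x').card := by
    refine card_le_card_of_injOn (fun k => 2 * X' + 6 * k + (x + 10 * X') % 6) ?_ ?_
    · intro k hk
      rw [mem_coe, mem_range] at hk
      rw [mem_coe, mem_filter, mem_Ico]
      dsimp only
      have h6 : 6 * (X' / 6) ≤ X' := Nat.mul_div_le X' 6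
      refine ⟨⟨by omega, by omega⟩, ?_⟩
      unfold ST
      constructor
      · omega
      · constructor
        · intro h7
          omega
        · intro h7
          omega
    · intro k _ k' _ h
      have h2 : 2 * X' + 6 * k + (x + 10 * X') % 6 = 2 * X' + 6 * k' + (x + 10 * X') % 6 := h
      omega
  rw [card_range] at h1
  have h2 : (X' : ℝ) ≤ 6 * ((X' / 6 : ℕ) : ℝ) + 6 := by
    have : X' ≤ 6 * (X' / 6) + 6 := by omega
    exact_mod_cast this
  have h3 : ((X' / 6 : ℕ) : ℝ) ≤ (((Ico (2 * X') (3 * X')).filter fun x' => ST x x').card : ℝ) := by exact_mod_cast h1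
  linarith

open Classical in
/-- **A4.** Proof. `X' ≥ 2 Z ≥ 2 n^(1-B)`, so by `A4_class` the type of `x` has at least `n^(1-B)/3 - 1 > n^(1-c/2)`
elements in `[2X', 3X')` (`Nm.cst`: `10 n^(1-c/2) ≤ n^(1-B)`, `10 ≤ n^(1-B)` as `1 - B ≥ b/2`), so some `x'` of the
type is not in `bad`: `Z n^(-b)/2 ≤ dx (L X') Z x x'`. Only the `y` with `kp x y ≠ 0`, which are in `nb Z x`
(`a1_kp_hadj`), contribute, each at most `(log 8n)^2 n^(2b)` (`a1_kp_le`, `a1_km_abs`). So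
`Z n^(-b)/2 ≤ (nb Z x).card (log 8n)^2 n^(2b)` and `2 (log 8n)^2 n^(3b) ≤ n^(4b)`. -/
theorem A4 {n M : ℕ} {L : ℕ → ℤ → ℝ} {c B b : ℝ} (hN : Nm n b) (h : GIn n M L c B b)
    {X X' Z : ℕ} (hs : Sc n M B X Z) (hs' : Sc n M B X' Z) {x : ℕ}
    (hx : x ∈ Ico (2 * X) (3 * X)) (hb : ((bad n L b X' Z x).card : ℝ) ≤ (n : ℝ) ^ (1 - c / 2)) :
    Z * (n : ℝ) ^ (-(4 * b)) ≤ ((nb Z x).card : ℝ) := by
  have hb0 := h.b_pos
  have hbB := h.hb
  have hBc := h.hB
  have hc1 := h.hc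
  have hn := hN.n_pos
  have e1 : 10 * (n : ℝ) ^ (1 - c / 2) ≤ (n : ℝ) ^ (1 - B) := hN.cst (by norm_num) (by linarith)
  have e2 : (10 : ℝ) ≤ (n : ℝ) ^ (1 - B) := by
    have := hN.cst (K := 10) (x := 0) (y := 1 - B) (by norm_num) (by linarith)
    rwa [Real.rpow_zero, mul_one] at this
  obtain ⟨x', hx', hST, hnb⟩ : ∃ x' ∈ Ico (2 * X') (3 * X'), ST x x' ∧ x' ∉ bad n L b X' Z x := by
    by_contra hcon
    have hsub : ((Ico (2 * X') (3 * X')).filter fun x' => ST x x') ⊆ bad n L b X' Z x := by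
      intro x' hx'
      rw [mem_filter] at hx'
      by_contra h1
      exact hcon ⟨x', hx'.1, hx'.2, h1⟩
    have h1 : ((((Ico (2 * X') (3 * X')).filter fun x' => ST x x').card : ℕ) : ℝ) ≤ ((bad n L b X' Z x).card : ℝ) := by
      exact_mod_cast card_le_card hsub
    have h2 := A4_class X' x
    have h3 : (2 : ℝ) * Z ≤ X' := by exact_mod_cast hs'.le
    have h4 := hs'.lo
    have h5 := hN.ppos (1 - c / 2)
    linarith
  have hdx : Z * (n : ℝ) ^ (-b) / 2 ≤ dx (L X') Z x x' := by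
    by_contra h1
    apply hnb
    unfold bad
    rw [mem_filter]
    exact ⟨hx', hST, not_le.1 h1⟩
  have hup : dx (L X') Z x x' ≤ ((nb Z x).card : ℝ) * ((Real.log (8 * n)) ^ 2 * (n : ℝ) ^ (2 * b)) := by
    have h1 : ∀ y ∈ Ico Z (2 * Z), kp x y * km (L X') x' y ≤
        if hadj x y then (Real.log (8 * n)) ^ 2 * (n : ℝ) ^ (2 * b) else 0 := by
      intro y hy
      by_cases hk : kp x y = 0
      · rw [hk, zero_mul]
        split_ifs
        · exact mul_nonneg (sq_nonneg _) (hN.ppos _).le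
        · exact le_rfl
      · rw [if_pos (a1_kp_hadj hn hs hx hy hk)]
        refine (mul_le_mul_of_nonneg_left (le_abs_self _) (a1_kp_nonneg x y)).trans ?_
        exact mul_le_mul (a1_kp_le hn hs hx hy) (a1_km_abs hN h hs' hx' hy) (abs_nonneg _) (sq_nonneg _)
    unfold dx
    refine (sum_le_sum h1).trans (le_of_eq ?_)
    rw [← sum_filter, sum_const, nsmul_eq_mul]
    rfl
  have h1 := hN.lg (K := 2) (x := 3 * b) (y := 4 * b) (j := 2) (by norm_num) (by norm_num) (by linarith)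
  have q1 : (n : ℝ) ^ (-b) * (n : ℝ) ^ (-(3 * b)) = (n : ℝ) ^ (-(4 * b)) := by
    rw [hN.mul]
    congr 1
    ring
  have q2 : (n : ℝ) ^ (3 * b) * (n : ℝ) ^ (-(4 * b)) = (n : ℝ) ^ (2 * b) * (n : ℝ) ^ (-(3 * b)) := by
    rw [hN.mul, hN.mul]
    congr 1
    ring
  have q3 : (n : ℝ) ^ (4 * b) * (n : ℝ) ^ (-(4 * b)) = 1 := by
    rw [hN.mul, add_neg_cancel, Real.rpow_zero]
  have hcard : (0 : ℝ) ≤ ((nb Z x).card : ℝ) := Nat.cast_nonneg _
  calc Z * (n : ℝ) ^ (-(4 * b)) = 2 * (Z * (n : ℝ) ^ (-b) / 2) * (n : ℝ) ^ (-(3 * b)) := by rw [← q1]; ring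
    _ ≤ 2 * (((nb Z x).card : ℝ) * ((Real.log (8 * n)) ^ 2 * (n : ℝ) ^ (2 * b))) * (n : ℝ) ^ (-(3 * b)) := by
        refine mul_le_mul_of_nonneg_right ?_ (hN.ppos _).le
        linarith
    _ = ((nb Z x).card : ℝ) * (2 * (Real.log (8 * n)) ^ 2 * ((n : ℝ) ^ (2 * b) * (n : ℝ) ^ (-(3 * b)))) := by ring
    _ = ((nb Z x).card : ℝ) * ((2 * (Real.log (8 * n)) ^ 2 * (n : ℝ) ^ (3 * b)) * (n : ℝ) ^ (-(4 * b))) := by
        rw [← q2]
        ring
    _ ≤ ((nb Z x).card : ℝ) * ((n : ℝ) ^ (4 * b) * (n : ℝ) ^ (-(4 * b))) :=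
        mul_le_mul_of_nonneg_left (mul_le_mul_of_nonneg_right h1 (hN.ppos _).le) hcard
    _ = ((nb Z x).card : ℝ) := by rw [q3, mul_one]

end Pool.Agent.Lib.H96G
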