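import Pool.Agent.Lib.H96G.A0
import Pool.Agent.Lib.H96G.A1

/-!
# Project H96G, chunk A5 (M): good vertices are at distance two from most vertices of their type
-/

open Finset

namespace Pool.Agent.Lib.H96G

open Pool.Agent.Lib.GoldbachGraph (hadj)

theorem a5_mem_far {Z x : ℕ} {I : Finset ℕ} {x' : ℕ} : x' ∈ far Z x I ↔
    x' ∈ I ∧ ST x x' ∧ ¬ ∃ y ∈ Ico Z (2 * Z), hadj x y ∧ hadj x' y := by
  unfold far
  simp only [Finset.mem_filter]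

open Classical in
/-- **A5.** Proof. `W = far Z x (Ico (2X') (3X'))`, `l = log (8n)`. For `x' ∈ W` and `y ∈ [Z, 2Z)` one of `kp x y`,
`kp x' y` is zero (`a1_kp_hadj` for `X` and `X'`). Apply `A0_scale` at the scale `X'` with `f = 1_W` (`F = 1`),
`g y = kp x y` (`G = l^2`, `a1_kp_le`, `a1_kp_nonneg`): as `kp x y * kp x' y = 0`,
`|∑_{x' ∈ W} dx (L X') Z x x'| ≤ l^2 n^(2-c)`. For `x' ∈ W` not in `bad`: `dx ≥ Z n^(-b)/2` (elements of `W` have the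
type of `x`); for the others (at most `n^(1-c/2)` many) `dx ≥ - Z l^2 n^(2b)`. So
`(|W| - n^(1-c/2)) Z n^(-b)/2 ≤ l^2 n^(2-c) + n^(1-c/2) Z l^2 n^(2b)`, and dividing by `Z n^(-b)/2`, `Z ≥ n^(1-B)`:
`|W| ≤ n^(1-c/2) + 2 l^2 n^(1-c+b+B) + 2 l^2 n^(1-c/2+3b) ≤ n^(1-c/2+2B)` (`Nm.lg`; `c ≥ 100 B`, `B ≥ 100 b`). -/
theorem A5 {n M : ℕ} {L : ℕ → ℤ → ℝ} {c B b : ℝ} (hN : Nm n b) (h : GIn n M L c B b)
    {X X' Z : ℕ} (hs : Sc n M B X Z) (hs' : Sc n M B X' Z) {x : ℕ}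
    (hx : x ∈ Ico (2 * X) (3 * X)) (hb : ((bad n L b X' Z x).card : ℝ) ≤ (n : ℝ) ^ (1 - c / 2)) :
    ((far Z x (Ico (2 * X') (3 * X'))).card : ℝ) ≤ (n : ℝ) ^ (1 - c / 2 + 2 * B) := by
  have hb0 := h.b_pos
  have hbB := h.hb
  have hBc := h.hB
  have hn1 : 1 ≤ n := hN.n_pos
  set l := Real.log (8 * n) with hl
  have hl1 : 1 ≤ l := hN.ell
  set W := far Z x (Ico (2 * X') (3 * X')) with hW
  set Bd := bad n L b X' Z x with hBd
  have hWsub : W ⊆ Ico (2 * X') (3 * X') := fun x' hx' => (a5_mem_far.1 hx').1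
  have hZ1 : 1 ≤ Z := a1_Z_pos hn1 hs
  have hZ0 : (0 : ℝ) < Z := by exact_mod_cast hZ1
  -- the products of the kernels vanish on `W`
  have hzero : ∀ x' ∈ W, ∀ y ∈ Ico Z (2 * Z), kp x y * kp x' y = 0 := by
    intro x' hx' y hy
    by_contra hne
    have hx' := a5_mem_far.1 hx'
    exact hx'.2.2 ⟨y, hy, a1_kp_hadj hn1 hs hx hy (left_ne_zero_of_mul hne),
      a1_kp_hadj hn1 hs' hx'.1 hy (right_ne_zero_of_mul hne)⟩
  have hA := A0_scale h hs' (fun x' => if x' ∈ W then (1 : ℝ) else 0) (fun y => kp x y) 1 (l ^ 2)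
    one_pos (by positivity) (by
      intro x' _
      split_ifs <;> simp) (by
      intro y hy
      rw [abs_of_nonneg (a1_kp_nonneg x y)]
      exact a1_kp_le hn1 hs hx hy)
  have hsum : (∑ x' ∈ Ico (2 * X') (3 * X'), ∑ y ∈ Ico Z (2 * Z),
      (if x' ∈ W then (1 : ℝ) else 0) * kp x y * (kp x' y - km (L X') x' y)) =
      -∑ x' ∈ W, dx (L X') Z x x' := by
    rw [← sum_neg_distrib, ← sum_subset hWsub]
    · refine sum_congr rfl fun x' hx' => ?_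
      rw [dx, ← sum_neg_distrib]
      refine sum_congr rfl fun y hy => ?_
      rw [if_pos hx', one_mul, mul_sub, hzero x' hx' y hy, zero_sub]
    · intro x' _ hx'
      refine sum_eq_zero fun y _ => ?_
      rw [if_neg hx', zero_mul, zero_mul]
  have hA' : ∑ x' ∈ W, dx (L X') Z x x' ≤ l ^ 2 * (n : ℝ) ^ (2 - c) := by
    have h1 : |∑ x' ∈ Ico (2 * X') (3 * X'), ∑ y ∈ Ico Z (2 * Z),
      (if x' ∈ W then (1 : ℝ) else 0) * kp x y * (kp x' y - km (L X') x' y)| ≤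
        1 * l ^ 2 * (n : ℝ) ^ (2 - c) := hA
    rw [hsum, abs_neg, one_mul] at h1
    exact (le_abs_self _).trans h1
  -- lower bounds
  set t : ℝ := Z * (n : ℝ) ^ (-b) / 2 with ht
  have ht0 : 0 < t := by
    rw [ht]
    have := hN.ppos (-b)
    positivity
  set u : ℝ := Z * (l ^ 2 * (n : ℝ) ^ (2 * b)) with hu
  have hu0 : 0 ≤ u := by
    have := hN.ppos (2 * b)
    positivity
  have hgood : ∀ x' ∈ W \ Bd, t ≤ dx (L X') Z x x' := by
    intro x' hx'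
    rw [mem_sdiff] at hx'
    by_contra hlt
    apply hx'.2
    rw [hBd, bad, mem_filter]
    refine ⟨hWsub hx'.1, ?_, not_le.1 hlt⟩
    exact (a5_mem_far.1 hx'.1).2.1
  have hall : ∀ x' ∈ W, -u ≤ dx (L X') Z x x' := by
    intro x' hx'
    have h1 : |dx (L X') Z x x'| ≤ u := by
      rw [dx]
      refine (abs_sum_le_sum_abs _ _).trans ?_
      have h2 : ∀ y ∈ Ico Z (2 * Z), |kp x y * km (L X') x' y| ≤ l ^ 2 * (n : ℝ) ^ (2 * b) := by
        intro y hy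
        rw [abs_mul, abs_of_nonneg (a1_kp_nonneg x y)]
        exact mul_le_mul (a1_kp_le hn1 hs hx hy) (a1_km_abs hN h hs' (hWsub hx') hy) (abs_nonneg _)
          (by positivity)
      refine (sum_le_card_nsmul _ _ _ h2).trans ?_
      rw [Nat.card_Ico, nsmul_eq_mul, hu]
      have h3 : 2 * Z - Z = Z := by omega
      rw [h3]
    exact (neg_le_neg h1).trans (neg_abs_le _)
  have hsplit : ∑ x' ∈ W, dx (L X') Z x x' =
      ∑ x' ∈ W \ Bd, dx (L X') Z x x' + ∑ x' ∈ W ∩ Bd, dx (L X') Z x x' := by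
    rw [add_comm, sum_inter_add_sum_sdiff]
  have h1 : (W \ Bd).card • t ≤ ∑ x' ∈ W \ Bd, dx (L X') Z x x' :=
    card_nsmul_le_sum _ _ _ hgood
  have h2 : (W ∩ Bd).card • (-u) ≤ ∑ x' ∈ W ∩ Bd, dx (L X') Z x x' :=
    card_nsmul_le_sum _ _ _ fun x' hx' => hall x' (mem_inter.1 hx').1
  rw [nsmul_eq_mul] at h1 h2
  have h3 : ((W ∩ Bd).card : ℝ) ≤ Bd.card := by
    exact_mod_cast card_le_card inter_subset_right
  have h4 : (W.card : ℝ) = (W \ Bd).card + (W ∩ Bd).card := by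
    have := card_sdiff_add_card_inter W Bd
    exact_mod_cast this.symm
  -- `|W| t ≤ l^2 n^(2-c) + |Bd| (u + t)`
  have h5 : (W.card : ℝ) * t ≤ l ^ 2 * (n : ℝ) ^ (2 - c) + (n : ℝ) ^ (1 - c / 2) * (u + t) := by
    have h6 : ((W ∩ Bd).card : ℝ) * (u + t) ≤ (n : ℝ) ^ (1 - c / 2) * (u + t) :=
      mul_le_mul_of_nonneg_right (h3.trans hb) (by linarith)
    rw [h4]
    nlinarith [hA', hsplit, h1, h2]
  -- division by `t`
  have hnb : (n : ℝ) ^ (-b) * (n : ℝ) ^ b = 1 := by rw [hN.mul]; simp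
  have ht2 : t * (2 * (n : ℝ) ^ b) = Z := by
    rw [ht]
    calc (Z : ℝ) * (n : ℝ) ^ (-b) / 2 * (2 * (n : ℝ) ^ b) = Z * ((n : ℝ) ^ (-b) * (n : ℝ) ^ b) := by ring
      _ = Z := by rw [hnb, mul_one]
  have e1 : l ^ 2 * (n : ℝ) ^ (2 - c) ≤ t * (2 * l ^ 2 * (n : ℝ) ^ (1 - c + b + B)) := by
    have h7 : (n : ℝ) ^ (2 - c) = (n : ℝ) ^ (1 - B) * (n : ℝ) ^ (1 - c + B) := by
      rw [hN.mul]; congr 1; ring
    have h8 : (n : ℝ) ^ (1 - c + b + B) = (n : ℝ) ^ b * (n : ℝ) ^ (1 - c + B) := by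
      rw [hN.mul]; congr 1; ring
    have h9 := hN.ppos (1 - c + B)
    calc l ^ 2 * (n : ℝ) ^ (2 - c) = (n : ℝ) ^ (1 - B) * (l ^ 2 * (n : ℝ) ^ (1 - c + B)) := by rw [h7]; ring
      _ ≤ Z * (l ^ 2 * (n : ℝ) ^ (1 - c + B)) := mul_le_mul_of_nonneg_right hs.lo (by positivity)
      _ = t * (2 * (n : ℝ) ^ b) * (l ^ 2 * (n : ℝ) ^ (1 - c + B)) := by rw [ht2]
      _ = t * (2 * l ^ 2 * (n : ℝ) ^ (1 - c + b + B)) := by rw [h8]; ring
  have e2 : (n : ℝ) ^ (1 - c / 2) * u = t * (2 * l ^ 2 * (n : ℝ) ^ (1 - c / 2 + 3 * b)) := by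
    have h8 : (n : ℝ) ^ (1 - c / 2 + 3 * b) = (n : ℝ) ^ (1 - c / 2) * (n : ℝ) ^ (2 * b) * (n : ℝ) ^ b := by
      rw [hN.mul, hN.mul]; congr 1; ring
    rw [hu, h8]
    calc (n : ℝ) ^ (1 - c / 2) * (Z * (l ^ 2 * (n : ℝ) ^ (2 * b)))
        = (n : ℝ) ^ (1 - c / 2) * ((t * (2 * (n : ℝ) ^ b)) * (l ^ 2 * (n : ℝ) ^ (2 * b))) := by rw [ht2]
      _ = _ := by ring
  have h10 : (W.card : ℝ) ≤ 2 * l ^ 2 * (n : ℝ) ^ (1 - c + b + B) +
      2 * l ^ 2 * (n : ℝ) ^ (1 - c / 2 + 3 * b) + (n : ℝ) ^ (1 - c / 2) := by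
    have h11 : (W.card : ℝ) * t ≤ (2 * l ^ 2 * (n : ℝ) ^ (1 - c + b + B) +
      2 * l ^ 2 * (n : ℝ) ^ (1 - c / 2 + 3 * b) + (n : ℝ) ^ (1 - c / 2)) * t := by
      rw [mul_add, e2] at h5
      linarith
    exact le_of_mul_le_mul_right h11 ht0
  have k1 := hN.lg (K := 6) (x := 1 - c + b + B) (y := 1 - c / 2 + 2 * B) (j := 2) (by norm_num)
    (by norm_num) (by linarith)
  have k2 := hN.lg (K := 6) (x := 1 - c / 2 + 3 * b) (y := 1 - c / 2 + 2 * B) (j := 2) (by norm_num)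
    (by norm_num) (by linarith)
  have k3 := hN.cst (K := 3) (x := 1 - c / 2) (y := 1 - c / 2 + 2 * B) (by norm_num) (by linarith)
  rw [← hl] at k1 k2
  linarith

end Pool.Agent.Lib.H96G
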