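import Pool.Agent.Lib.H96G.A0
import Pool.Agent.Lib.H96G.A1

/-!
# Project H96G, chunk A6 (M): neighbours `y` with `2y - 3` prime
-/

open Finset

namespace Pool.Agent.Lib.H96G

open Pool.Agent.Lib.H68T (lp)

open Classical in
theorem a6_upper {n M : ℕ} {B : ℝ} (hn : 1 ≤ n) {X Z : ℕ} (hs : Sc n M B X Z) {x : ℕ}
    (hx : x ∈ Ico (2 * X) (3 * X)) (hl : 0 ≤ Real.log (8 * n)) :
    ∑ y ∈ Ico Z (2 * Z), lp (2 * (y : ℤ) - 3) * kp x y ≤ ((nb3 Z x).card : ℝ) * (Real.log (8 * n)) ^ 3 := by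
  have h1 : ∀ y ∈ Ico Z (2 * Z), lp (2 * (y : ℤ) - 3) * kp x y ≤
      if (Pool.Agent.Lib.GoldbachGraph.hadj x y ∧ (2 * y - 3).Prime) then (Real.log (8 * n)) ^ 3 else 0 := by
    intro y hy
    split_ifs with hc
    · have h2 := a1_lp3_le hn hs hy
      have h3 := a1_kp_le hn hs hx hy
      have h4 := a1_lp_nonneg (2 * (y : ℤ) - 3)
      have h5 := a1_kp_nonneg x y
      calc lp (2 * (y : ℤ) - 3) * kp x y ≤ Real.log (8 * n) * (Real.log (8 * n)) ^ 2 := mul_le_mul h2 h3 h5 hl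
        _ = (Real.log (8 * n)) ^ 3 := by ring
    · rw [not_and_or] at hc
      rcases hc with hc | hc
      · have : kp x y = 0 := by
          by_contra hk
          exact hc (a1_kp_hadj hn hs hx hy hk)
        rw [this, mul_zero]
      · have : lp (2 * (y : ℤ) - 3) = 0 := by
          by_contra hk
          exact hc (a1_lp3 y hk)
        rw [this, zero_mul]
  refine (sum_le_sum h1).trans ?_
  rw [← sum_filter, sum_const, nsmul_eq_mul]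
  refine mul_le_mul_of_nonneg_right ?_ (pow_nonneg hl 3)
  have h6 : ((Ico Z (2 * Z)).filter fun y => Pool.Agent.Lib.GoldbachGraph.hadj x y ∧ (2 * y - 3).Prime).card ≤ (nb3 Z x).card := by
    apply card_le_card
    intro y hy
    unfold nb3
    simp only [mem_filter] at hy ⊢
    exact hy
  exact_mod_cast h6

open Classical in
/-- **A6.** Proof. `l = log (8n)`, `g y = lp (2y-3)`, `0 ≤ g ≤ l` on `[Z, 2Z)` (`a1_lp_nonneg`, `a1_lp3_le`). Let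
`x ∈ [2X, 3X)`, `3 ∣ x`, not in the exceptional set of the field `m3` (at most `n^(1-c)` elements) and not in the one
of `A0_dual` with `t = Z n^(-b)/2` (at most `2 l n^(2-c) n^b / Z ≤ 2 l n^(1-c+b+B)` elements). Then
`∑_y kp x y * g y ≥ Z n^(-b) - Z n^(-b)/2`. Only `y ∈ nb3 Z x` contribute (`a1_kp_hadj`, `a1_lp3`), each at most
`l^3` (`a1_kp_le`), so `(nb3 Z x).card ≥ Z n^(-b)/(2 l^3) ≥ Z n^(-4b)`. And
`n^(1-c) + 2 l n^(1-c+b+B) ≤ n^(1-c/2)`. -/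
theorem A6 {n M : ℕ} {L : ℕ → ℤ → ℝ} {c B b : ℝ} (hN : Nm n b) (h : GIn n M L c B b)
    {X Z : ℕ} (hs : Sc n M B X Z) :
    (((Ico (2 * X) (3 * X)).filter fun x => 3 ∣ x ∧
      ¬ Z * (n : ℝ) ^ (-(4 * b)) ≤ ((nb3 Z x).card : ℝ)).card : ℝ) ≤ (n : ℝ) ^ (1 - c / 2) := by
  have hn := hN.n_pos
  have hl := hN.ell
  have hl0 : 0 ≤ Real.log (8 * n) := by linarith
  have hlp : 0 < Real.log (8 * n) := by linarith
  have hb := h.hb
  have hB := h.hB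
  have hb0 := h.b_pos
  have hZ := a1_Z_pos hn hs
  have hZ' : (0 : ℝ) < Z := by exact_mod_cast hZ
  have hG : ∀ y ∈ Ico Z (2 * Z), |lp (2 * (y : ℤ) - 3)| ≤ Real.log (8 * n) := by
    intro y hy
    rw [abs_of_nonneg (a1_lp_nonneg _)]
    exact a1_lp3_le hn hs hy
  have hT0 : 0 ≤ (Z : ℝ) * (n : ℝ) ^ (-b) / 2 := by
    have := hN.ppos (-b)
    positivity
  have hD := A0_dual h hs (fun y => lp (2 * (y : ℤ) - 3)) (Real.log (8 * n)) (Z * (n : ℝ) ^ (-b) / 2) hlp hT0 hG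
  have hE1 := h.m3 X Z hs
  obtain ⟨E1, hE1d⟩ : ∃ E : Finset ℕ, E = (Ico (2 * X) (3 * X)).filter fun x => 3 ∣ x ∧
      ∑ y ∈ Ico Z (2 * Z), km (L X) x y * lp (2 * (y : ℤ) - 3) < Z * (n : ℝ) ^ (-b) := ⟨_, rfl⟩
  obtain ⟨E2, hE2d⟩ : ∃ E : Finset ℕ, E = (Ico (2 * X) (3 * X)).filter fun x =>
      Z * (n : ℝ) ^ (-b) / 2 < |∑ y ∈ Ico Z (2 * Z), lp (2 * (y : ℤ) - 3) * (kp x y - km (L X) x y)| := ⟨_, rfl⟩
  have hE1' : (E1.card : ℝ) ≤ (n : ℝ) ^ (1 - c) := by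
    rw [hE1d]
    exact hE1
  have hD' : (Z : ℝ) * (n : ℝ) ^ (-b) / 2 * (E2.card : ℝ) ≤ Real.log (8 * n) * (n : ℝ) ^ (2 - c) := by
    rw [hE2d]
    exact hD
  have hsub : (Ico (2 * X) (3 * X)).filter (fun x => 3 ∣ x ∧
      ¬ Z * (n : ℝ) ^ (-(4 * b)) ≤ ((nb3 Z x).card : ℝ)) ⊆ E1 ∪ E2 := by
    intro x hx
    simp only [mem_filter] at hx
    obtain ⟨hx1, hx3, hx4⟩ := hx
    by_contra hcon
    rw [mem_union, not_or, hE1d, hE2d] at hcon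
    simp only [mem_filter, not_and, not_lt] at hcon
    obtain ⟨hc1, hc2⟩ := hcon
    have h1 := hc1 hx1 hx3
    have h2 := hc2 hx1
    have h3 : ∑ y ∈ Ico Z (2 * Z), lp (2 * (y : ℤ) - 3) * (kp x y - km (L X) x y) =
        ∑ y ∈ Ico Z (2 * Z), lp (2 * (y : ℤ) - 3) * kp x y - ∑ y ∈ Ico Z (2 * Z), km (L X) x y * lp (2 * (y : ℤ) - 3) := by
      rw [← sum_sub_distrib]
      refine sum_congr rfl fun y _ => ?_
      ring
    rw [h3] at h2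
    have h4 := (abs_le.1 h2).1
    have h5 := a6_upper hn hs hx1 hl0
    have h6 : 2 * (Real.log (8 * n)) ^ 3 * (n : ℝ) ^ (-(4 * b)) ≤ (n : ℝ) ^ (-b) :=
      hN.lg (K := 2) (j := 3) (by norm_num) (by norm_num) (by linarith)
    have h7 : (Z : ℝ) * (2 * (Real.log (8 * n)) ^ 3 * (n : ℝ) ^ (-(4 * b))) ≤ Z * (n : ℝ) ^ (-b) :=
      mul_le_mul_of_nonneg_left h6 hZ'.le
    have h8 : (Real.log (8 * n)) ^ 3 * (Z * (n : ℝ) ^ (-(4 * b))) ≤ (Real.log (8 * n)) ^ 3 * (nb3 Z x).card := by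
      nlinarith
    exact hx4 (le_of_mul_le_mul_left h8 (pow_pos hlp 3))
  have hcard : (((Ico (2 * X) (3 * X)).filter fun x => 3 ∣ x ∧
      ¬ Z * (n : ℝ) ^ (-(4 * b)) ≤ ((nb3 Z x).card : ℝ)).card : ℝ) ≤ E1.card + E2.card := by
    have := (card_le_card hsub).trans (card_union_le _ _)
    exact_mod_cast this
  refine hcard.trans ?_
  have hE2' : (E2.card : ℝ) ≤ 2 * (Real.log (8 * n)) ^ 1 * (n : ℝ) ^ (1 - c + b + B) := by
    have h1 : (n : ℝ) ^ (1 - B) * ((n : ℝ) ^ (-b) * E2.card) ≤ Z * ((n : ℝ) ^ (-b) * E2.card) :=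
      mul_le_mul_of_nonneg_right hs.lo (by have := hN.ppos (-b); positivity)
    have h2 : (n : ℝ) ^ (1 - B - b) * E2.card ≤ 2 * Real.log (8 * n) * (n : ℝ) ^ (2 - c) := by
      have h3 : (n : ℝ) ^ (1 - B - b) = (n : ℝ) ^ (1 - B) * (n : ℝ) ^ (-b) := by
        rw [hN.mul]
        congr 1
      rw [h3]
      nlinarith
    have h4 : (n : ℝ) ^ (2 - c) = (n : ℝ) ^ (1 - B - b) * (n : ℝ) ^ (1 - c + b + B) := by
      rw [hN.mul]
      congr 1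
      ring
    rw [h4] at h2
    have h5 : (n : ℝ) ^ (1 - B - b) * E2.card ≤ (n : ℝ) ^ (1 - B - b) * (2 * (Real.log (8 * n)) ^ 1 * (n : ℝ) ^ (1 - c + b + B)) := by
      refine h2.trans (le_of_eq ?_)
      ring
    exact le_of_mul_le_mul_left h5 (hN.ppos _)
  have h10 : 2 * (n : ℝ) ^ (1 - c) ≤ (n : ℝ) ^ (1 - c / 2) := hN.cst (by norm_num) (by linarith)
  have h11 : 4 * (Real.log (8 * n)) ^ 1 * (n : ℝ) ^ (1 - c + b + B) ≤ (n : ℝ) ^ (1 - c / 2) :=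
    hN.lg (by norm_num) (by norm_num) (by linarith)
  linarith

end Pool.Agent.Lib.H96G
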