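import Pool.Agent.Lib.H96G.Num

/-!
# Project H96G, chunk B1 (M): scales
-/

open Finset

namespace Pool.Agent.Lib.H96G

/-- the scales -/
def b1_X (M Z : ℕ) : ℕ → ℕ
  | 0 => 2 * Z
  | j + 1 => M * (3 * b1_X M Z j / (2 * M))

theorem b1_dvd {M Z : ℕ} (hZ : M ∣ Z) (j : ℕ) : M ∣ b1_X M Z j := by
  cases j with
  | zero => exact Dvd.dvd.mul_left hZ 2
  | succ j => exact Dvd.intro _ rfl

/-- `3 X / 2 - M < M (3 X / (2 M)) ≤ 3 X / 2` -/
theorem b1_step (M X : ℕ) (hM : 1 ≤ M) : 2 * (M * (3 * X / (2 * M))) ≤ 3 * X ∧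
    3 * X < 2 * (M * (3 * X / (2 * M))) + 2 * M := by
  have h1 := Nat.div_add_mod (3 * X) (2 * M)
  have h2 : 3 * X % (2 * M) < 2 * M := Nat.mod_lt _ (by omega)
  have h3 : 2 * (M * (3 * X / (2 * M))) = 2 * M * (3 * X / (2 * M)) := by ring
  omega

theorem b1_ge {M Z : ℕ} (hM : 1 ≤ M) (hZM : 8 * M ≤ Z) (j : ℕ) : 2 * Z ≤ b1_X M Z j := by
  induction j with
  | zero => exact le_refl _
  | succ j ih =>
    have h := b1_step M (b1_X M Z j) hM
    change 2 * Z ≤ M * (3 * b1_X M Z j / (2 * M))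
    omega

theorem b1_grow {M Z : ℕ} (hM : 1 ≤ M) (hZM : 8 * M ≤ Z) (j : ℕ) :
    2 * b1_X M Z (j + 1) ≤ 3 * b1_X M Z j ∧ 7 * b1_X M Z j ≤ 5 * b1_X M Z (j + 1) := by
  have h := b1_step M (b1_X M Z j) hM
  have h2 := b1_ge hM hZM j
  change 2 * (M * (3 * b1_X M Z j / (2 * M))) ≤ 3 * b1_X M Z j ∧
    7 * b1_X M Z j ≤ 5 * (M * (3 * b1_X M Z j / (2 * M)))
  omega

theorem b1_pow {M Z : ℕ} (hM : 1 ≤ M) (hZM : 8 * M ≤ Z) (j : ℕ) :
    ((7 : ℝ) / 5) ^ j ≤ b1_X M Z j := by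
  induction j with
  | zero =>
    rw [pow_zero]
    have h := b1_ge hM hZM 0
    have h2 : 1 ≤ b1_X M Z 0 := by omega
    exact_mod_cast h2
  | succ j ih =>
    have h := (b1_grow hM hZM j).2
    have h2 : (7 : ℝ) * b1_X M Z j ≤ 5 * b1_X M Z (j + 1) := by exact_mod_cast h
    rw [pow_succ]
    linarith

/-- `n ≤ (7 / 5) ^ J` for `J > 3 log n` -/
theorem b1_log (n J : ℕ) (hn : 1 ≤ n) (hJ : 3 * Real.log n ≤ J) : (n : ℝ) ≤ ((7 : ℝ) / 5) ^ J := by
  have hn' : (0 : ℝ) < n := by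
    have : 0 < n := hn
    exact_mod_cast this
  have h1 : Real.exp 1 ≤ ((7 : ℝ) / 5) ^ 3 := by
    have := Real.exp_one_lt_d9
    norm_num at this ⊢
    linarith
  have h2 : (1 : ℝ) / 3 ≤ Real.log (7 / 5) := by
    have h3 := Real.log_le_log (Real.exp_pos 1) h1
    rw [Real.log_exp, Real.log_pow] at h3
    push_cast at h3
    linarith
  have h4 : Real.log n ≤ J * Real.log (7 / 5) := by
    have h5 : (J : ℝ) * (1 / 3) ≤ J * Real.log (7 / 5) := mul_le_mul_of_nonneg_left h2 (by positivity)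
    linarith
  rw [← Real.log_pow] at h4
  exact (Real.log_le_log_iff hn' (by positivity)).1 h4

/-- **B1.** Proof. If `n < 4 Z` take `S = ∅` (`log (8n) ≥ 0` also for `n = 0`). Else let `X_0 = 2 Z`,
`X_(j+1) = M * (3 X_j / (2 M))` (`Nat` division). All `X_j` are multiples of `M`, `X_j ≥ 2 Z ≥ 16 M`, and
`3 X_j/2 - M < X_(j+1) ≤ 3 X_j/2`, so `X_(j+1) ≥ (23/16) X_j ≥ (7/5) X_j` and `X_j ≥ (7/5)^j`. `S` = the set of the
`X_j` with `2 X_j ≤ n`, contained in the image of `range J` for every `J` with `(7/5)^J > n`, for instance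
`J = ⌊3 log n⌋ + 1` (`log (7/5) > 1/3`: `exp 1 ≤ 2.7183 ≤ 2.744 = (7/5)^3`), and `3 log n + 1 ≤ 5 log (8n)`.
Covering: for `4 Z ≤ u ≤ n` let `j` be maximal with `2 X_j ≤ u` (`Nat.findGreatest` or induction): then
`u < 2 X_(j+1) ≤ 3 X_j`. -/
theorem B1 (n M Z : ℕ) (hM : 1 ≤ M) (hZ : M ∣ Z) (hZM : 8 * M ≤ Z) :
    ∃ S : Finset ℕ, (∀ X ∈ S, M ∣ X ∧ 2 * Z ≤ X ∧ X ≤ n) ∧ (S.card : ℝ) ≤ 5 * Real.log (8 * n) ∧
      ∀ u : ℕ, 4 * Z ≤ u → u ≤ n → ∃ X ∈ S, u ∈ Ico (2 * X) (3 * X) := by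
  rcases Nat.eq_zero_or_pos n with hn | hn
  · refine ⟨∅, by simp, ?_, ?_⟩
    · rw [hn]
      simp
    · intro u h1 h2
      omega
  obtain ⟨J, hJ⟩ : ∃ J : ℕ, J = ⌊3 * Real.log n⌋₊ + 1 := ⟨_, rfl⟩
  have hn' : (1 : ℝ) ≤ n := by exact_mod_cast hn
  have hlog0 : 0 ≤ Real.log n := Real.log_nonneg hn'
  have hJ1 : 3 * Real.log n ≤ J := by
    have := Nat.lt_floor_add_one (3 * Real.log n)
    rw [hJ]
    push_cast
    linarith
  have hJ2 : (J : ℝ) ≤ 3 * Real.log n + 1 := by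
    have := Nat.floor_le (a := 3 * Real.log n) (by positivity)
    rw [hJ]
    push_cast
    linarith
  have hpow := (b1_log n J hn hJ1).trans (b1_pow hM hZM J)
  have hpow' : n ≤ b1_X M Z J := by exact_mod_cast hpow
  refine ⟨((range J).image (b1_X M Z)).filter (fun X => 2 * X ≤ n), ?_, ?_, ?_⟩
  · intro X hX
    rw [mem_filter, mem_image] at hX
    obtain ⟨⟨j, _, rfl⟩, h2⟩ := hX
    exact ⟨b1_dvd hZ j, b1_ge hM hZM j, by omega⟩
  · have h1 : (((range J).image (b1_X M Z)).filter (fun X => 2 * X ≤ n)).card ≤ J := by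
      refine (card_filter_le _ _).trans (card_image_le.trans ?_)
      rw [card_range]
    have h2 : ((((range J).image (b1_X M Z)).filter (fun X => 2 * X ≤ n)).card : ℝ) ≤ J := by exact_mod_cast h1
    have h3 : Real.log (8 * n) = Real.log 8 + Real.log n := Real.log_mul (by norm_num) (by positivity)
    have h4 : (1 : ℝ) ≤ Real.log 8 := by
      rw [Real.le_log_iff_exp_le (by norm_num)]
      linarith [Real.exp_one_lt_d9]
    rw [h3]
    linarith
  · intro u hu1 hu2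
    have hex : ∃ j, u < 2 * b1_X M Z j := by
      refine ⟨J, ?_⟩
      have := b1_ge hM hZM J
      omega
    have hspec := Nat.find_spec hex
    have hmin := fun m hm => Nat.find_min hex (m := m) hm
    obtain ⟨k, hk⟩ : ∃ k, Nat.find hex = k := ⟨_, rfl⟩
    rw [hk] at hspec
    have hkJ : k ≤ J := by
      rw [← hk]
      apply Nat.find_min' hex
      have := b1_ge hM hZM J
      omega
    cases k with
    | zero =>
      have h0 : b1_X M Z 0 = 2 * Z := rfl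
      rw [h0] at hspec
      omega
    | succ j =>
      have h1 := hmin j (by omega)
      have h2 := (b1_grow hM hZM j).1
      refine ⟨b1_X M Z j, ?_, ?_⟩
      · rw [mem_filter, mem_image]
        refine ⟨⟨j, ?_, rfl⟩, by omega⟩
        rw [mem_range]
        omega
      · rw [mem_Ico]
        omega

end Pool.Agent.Lib.H96G
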