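import Pool.Agent.Lib.H96G.A3
import Pool.Agent.Lib.H96G.A4
import Pool.Agent.Lib.H96G.A5
import Pool.Agent.Lib.H96G.A6
import Pool.Agent.Lib.H96G.B1

/-!
# Project H96G, chunk B2 (M): generic vertices
-/

open Finset

namespace Pool.Agent.Lib.H96G

theorem b2_card {S : Finset ℕ} {f : ℕ → Finset ℕ} {l K : ℝ} (hS : (S.card : ℝ) ≤ l) (hK : 0 ≤ K)
    (hf : ∀ X ∈ S, ((f X).card : ℝ) ≤ K) : ((S.biUnion f).card : ℝ) ≤ l * K := by
  have h1 : ((S.biUnion f).card : ℝ) ≤ ∑ X ∈ S, ((f X).card : ℝ) := by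
    have := card_biUnion_le (s := S) (t := f)
    exact_mod_cast this
  have h2 : ∑ X ∈ S, ((f X).card : ℝ) ≤ ∑ _X ∈ S, K := sum_le_sum hf
  rw [sum_const, nsmul_eq_mul] at h2
  exact (h1.trans h2).trans (mul_le_mul_of_nonneg_right hS hK)

open Classical in
/-- **B2.** Proof. `8 M ≤ 8 n^(1/2) ≤ n^(1-B) ≤ Z` (`Nm.cst`). Take `S` from `B1`; `Sc n M B X Z` for `X ∈ S`. `Γ` = the
`u ∈ Icc (4Z) n` such that for all `X ∈ S` with `u ∈ Ico (2X) (3X)`: `(bad n L b X' Z u).card ≤ n^(1-c/2)` for all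
`X' ∈ S`, and `Z n^(-4b) ≤ (nb3 Z u).card` if `3 ∣ u`.
`co`: the complement is contained in the union over `X, X' ∈ S` of the sets of `A3` and over `X ∈ S` of the sets of
`A6`: at most `25 l^2 n^(1-c/2+2B) + 5 l n^(1-c/2) ≤ n^(1-c/2+3B)`, `l = log (8n)`.
`al`: `u ∈ Ico (2X) (3X)` for some `X ∈ S` (`B1`), `A4` with `X' = X`. `ga`: definition. `be`: `far Z u (Icc (4Z) n)` is
contained in the union over `X' ∈ S` of `far Z u (Ico (2X') (3X'))` (`B1`), `A5`: at most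
`5 l n^(1-c/2+2B) ≤ n^(1-c/2+3B)`. -/
theorem B2 {n M : ℕ} {L : ℕ → ℤ → ℝ} {c B b : ℝ} (hN : Nm n b) (h : GIn n M L c B b)
    {Z : ℕ} (hZ : M ∣ Z) (hlo : (n : ℝ) ^ (1 - B) ≤ Z) :
    ∃ Γ : Finset ℕ, PZ n Z ((n : ℝ) ^ (1 - c / 2 + 3 * B)) (Z * (n : ℝ) ^ (-(4 * b))) Γ := by
  have hb := h.hb
  have hB := h.hB
  have hc := h.hc
  have hb0 := h.b_pos
  have hl := hN.ell
  have hl0 : 0 ≤ Real.log (8 * n) := by linarith
  have h8 : 8 * M ≤ Z := by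
    have h1 : 8 * (n : ℝ) ^ (1 / 2 : ℝ) ≤ (n : ℝ) ^ (1 - B) := hN.cst (by norm_num) (by linarith)
    have h2 : (8 : ℝ) * M ≤ Z := by linarith [h.Mn]
    exact_mod_cast h2
  obtain ⟨S, hS1, hS2, hS3⟩ := B1 n M Z h.M1 hZ h8
  have hSc : ∀ X ∈ S, Sc n M B X Z := fun X hX => ⟨(hS1 X hX).1, hZ, hlo, (hS1 X hX).2.1, (hS1 X hX).2.2⟩
  have hp1 := hN.ppos (1 - c / 2)
  have hp2 := hN.ppos (1 - c / 2 + 2 * B)
  have hp3 := hN.ppos (1 - c / 2 + 3 * B)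
  refine ⟨(Icc (4 * Z) n).filter fun u => ∀ X ∈ S, u ∈ Ico (2 * X) (3 * X) →
      (∀ X' ∈ S, ((bad n L b X' Z u).card : ℝ) ≤ (n : ℝ) ^ (1 - c / 2)) ∧
      (3 ∣ u → Z * (n : ℝ) ^ (-(4 * b)) ≤ ((nb3 Z u).card : ℝ)), ?_, ?_, ?_, ?_, ?_⟩
  · exact filter_subset _ _
  · obtain ⟨f3, hf3⟩ : ∃ f : ℕ → ℕ → Finset ℕ, f = fun X X' => (Ico (2 * X) (3 * X)).filter fun x =>
      ¬ ((bad n L b X' Z x).card : ℝ) ≤ (n : ℝ) ^ (1 - c / 2) := ⟨_, rfl⟩
    obtain ⟨f6, hf6⟩ : ∃ f : ℕ → Finset ℕ, f = fun X => (Ico (2 * X) (3 * X)).filter fun x => 3 ∣ x ∧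
      ¬ Z * (n : ℝ) ^ (-(4 * b)) ≤ ((nb3 Z x).card : ℝ) := ⟨_, rfl⟩
    have hsub : (Icc (4 * Z) n) \ ((Icc (4 * Z) n).filter fun u => ∀ X ∈ S, u ∈ Ico (2 * X) (3 * X) →
      (∀ X' ∈ S, ((bad n L b X' Z u).card : ℝ) ≤ (n : ℝ) ^ (1 - c / 2)) ∧
      (3 ∣ u → Z * (n : ℝ) ^ (-(4 * b)) ≤ ((nb3 Z u).card : ℝ))) ⊆
        (S.biUnion fun X => S.biUnion (f3 X)) ∪ S.biUnion f6 := by
      intro u hu
      rw [mem_sdiff] at hu
      obtain ⟨hu1, hu2⟩ := hu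
      by_contra hcon
      apply hu2
      rw [mem_filter]
      refine ⟨hu1, fun X hX huX => ?_⟩
      rw [mem_union, not_or] at hcon
      obtain ⟨hc1, hc2⟩ := hcon
      constructor
      · intro X' hX'
        by_contra hcc
        apply hc1
        rw [mem_biUnion]
        refine ⟨X, hX, ?_⟩
        rw [mem_biUnion]
        refine ⟨X', hX', ?_⟩
        rw [hf3]
        simp only [mem_filter]
        exact ⟨huX, hcc⟩
      · intro h3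
        by_contra hcc
        apply hc2
        rw [mem_biUnion]
        refine ⟨X, hX, ?_⟩
        rw [hf6]
        simp only [mem_filter]
        exact ⟨huX, h3, hcc⟩
    have hcard3 : ((S.biUnion fun X => S.biUnion (f3 X)).card : ℝ) ≤
        5 * Real.log (8 * n) * (5 * Real.log (8 * n) * (n : ℝ) ^ (1 - c / 2 + 2 * B)) := by
      refine b2_card hS2 (by positivity) fun X hX => b2_card hS2 hp2.le fun X' hX' => ?_
      rw [hf3]
      exact A3 hN h (hSc X hX) (hSc X' hX')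
    have hcard6 : ((S.biUnion f6).card : ℝ) ≤ 5 * Real.log (8 * n) * (n : ℝ) ^ (1 - c / 2) := by
      refine b2_card hS2 hp1.le fun X hX => ?_
      rw [hf6]
      exact A6 hN h (hSc X hX)
    have hcard : (((Icc (4 * Z) n) \ ((Icc (4 * Z) n).filter fun u => ∀ X ∈ S, u ∈ Ico (2 * X) (3 * X) →
      (∀ X' ∈ S, ((bad n L b X' Z u).card : ℝ) ≤ (n : ℝ) ^ (1 - c / 2)) ∧
      (3 ∣ u → Z * (n : ℝ) ^ (-(4 * b)) ≤ ((nb3 Z u).card : ℝ)))).card : ℝ) ≤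
        (S.biUnion fun X => S.biUnion (f3 X)).card + (S.biUnion f6).card := by
      have := (card_le_card hsub).trans (card_union_le _ _)
      exact_mod_cast this
    have h10 : 50 * (Real.log (8 * n)) ^ 2 * (n : ℝ) ^ (1 - c / 2 + 2 * B) ≤ (n : ℝ) ^ (1 - c / 2 + 3 * B) :=
      hN.lg (by norm_num) (by norm_num) (by linarith)
    have h11 : 10 * (Real.log (8 * n)) ^ 1 * (n : ℝ) ^ (1 - c / 2) ≤ (n : ℝ) ^ (1 - c / 2 + 3 * B) :=
      hN.lg (by norm_num) (by norm_num) (by linarith)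
    have h12 : 5 * Real.log (8 * n) * (5 * Real.log (8 * n) * (n : ℝ) ^ (1 - c / 2 + 2 * B)) =
        (1 / 2) * (50 * (Real.log (8 * n)) ^ 2 * (n : ℝ) ^ (1 - c / 2 + 2 * B)) := by ring
    have h13 : 5 * Real.log (8 * n) * (n : ℝ) ^ (1 - c / 2) =
        (1 / 2) * (10 * (Real.log (8 * n)) ^ 1 * (n : ℝ) ^ (1 - c / 2)) := by ring
    rw [h12] at hcard3
    rw [h13] at hcard6
    linarith
  · intro u hu
    rw [mem_filter] at hu
    obtain ⟨hu1, hu2⟩ := hu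
    rw [mem_Icc] at hu1
    obtain ⟨X, hX, huX⟩ := hS3 u hu1.1 hu1.2
    exact A4 hN h (hSc X hX) (hSc X hX) huX ((hu2 X hX huX).1 X hX)
  · intro u hu
    rw [mem_filter] at hu
    obtain ⟨hu1, hu2⟩ := hu
    rw [mem_Icc] at hu1
    obtain ⟨X, hX, huX⟩ := hS3 u hu1.1 hu1.2
    have hsub : far Z u (Icc (4 * Z) n) ⊆ S.biUnion fun X' => far Z u (Ico (2 * X') (3 * X')) := by
      intro w hw
      unfold far at hw
      simp only [mem_filter] at hw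
      obtain ⟨hw1, hw2⟩ := hw
      rw [mem_Icc] at hw1
      obtain ⟨X', hX', hwX'⟩ := hS3 w hw1.1 hw1.2
      rw [mem_biUnion]
      refine ⟨X', hX', ?_⟩
      unfold far
      simp only [mem_filter]
      exact ⟨hwX', hw2⟩
    have h1 : ((far Z u (Icc (4 * Z) n)).card : ℝ) ≤ (S.biUnion fun X' => far Z u (Ico (2 * X') (3 * X'))).card := by
      exact_mod_cast card_le_card hsub
    have h2 : ((S.biUnion fun X' => far Z u (Ico (2 * X') (3 * X'))).card : ℝ) ≤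
        5 * Real.log (8 * n) * (n : ℝ) ^ (1 - c / 2 + 2 * B) :=
      b2_card hS2 hp2.le fun X' hX' => A5 hN h (hSc X hX) (hSc X' hX') huX ((hu2 X hX huX).1 X' hX')
    have h3 : 5 * (Real.log (8 * n)) ^ 1 * (n : ℝ) ^ (1 - c / 2 + 2 * B) ≤ (n : ℝ) ^ (1 - c / 2 + 3 * B) :=
      hN.lg (by norm_num) (by norm_num) (by linarith)
    rw [pow_one] at h3
    exact (h1.trans h2).trans h3
  · intro u hu h3
    rw [mem_filter] at hu
    obtain ⟨hu1, hu2⟩ := hu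
    rw [mem_Icc] at hu1
    obtain ⟨X, hX, huX⟩ := hS3 u hu1.1 hu1.2
    exact (hu2 X hX huX).2 h3

end Pool.Agent.Lib.H96G
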