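import Pool.Agent.Lib.H96G.Defs

/-!
# Project H96G, chunk C0 (S/M): elementary facts on the halved graph
-/

open Finset

namespace Pool.Agent.Lib.H96G

open Pool.Agent.Lib.GoldbachGraph (hadj hadj_comm)

theorem c0_ST_symm {x y : ℕ} (h : ST x y) : ST y x := by
  exact ⟨h.1.symm, h.2.symm⟩

theorem c0_ST_trans {x y z : ℕ} (h : ST x y) (h' : ST y z) : ST x z := by
  exact ⟨h.1.trans h'.1, h.2.trans h'.2⟩

theorem c0_OT_symm {x y : ℕ} (h : OT x y) : OT y x := by
  obtain ⟨h1, h2⟩ := h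
  refine ⟨fun h3 => h1 h3.symm, ?_⟩
  tauto

/-- Proof. `omega` after splitting the equivalences. -/
theorem c0_OT_OT {x y z : ℕ} (h : OT x y) (h' : OT y z) : ST x z := by
  obtain ⟨h1, h2⟩ := h
  obtain ⟨h3, h4⟩ := h'
  refine ⟨by omega, ?_⟩
  tauto

/-- Proof. `x + y` is odd; if `x + y` and `|x-y|` are primes different from `3`, then `3` divides neither, so `x, y` are
not both divisible by `3`, and not both not divisible (else `x ≡ ± y` modulo `3`). -/
theorem c0_type {x y : ℕ} (h : hadj x y) (h1 : x + y ≠ 3) (h2 : Nat.dist x y ≠ 3) : OT x y := by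
  obtain ⟨p1, o1, p2, o2⟩ := h
  have d1 : ¬ 3 ∣ x + y := by
    intro h3
    exact h1 ((Nat.prime_dvd_prime_iff_eq Nat.prime_three p1).1 h3).symm
  have d2 : ¬ 3 ∣ Nat.dist x y := by
    intro h3
    exact h2 ((Nat.prime_dvd_prime_iff_eq Nat.prime_three p2).1 h3).symm
  rw [Nat.odd_iff] at o1
  unfold Nat.dist at d2
  refine ⟨by omega, ?_⟩
  have m1 : x % 3 = 0 ∨ x % 3 = 1 ∨ x % 3 = 2 := by omega
  have m2 : y % 3 = 0 ∨ y % 3 = 1 ∨ y % 3 = 2 := by omega
  rcases le_total x y with m3 | m3 <;> rcases m1 with m1 | m1 | m1 <;> rcases m2 with m2 | m2 | m2 <;> constructor <;>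
    intro h5 <;> omega

open Classical in
/-- Proof. `c0_type`: the exceptions are among `3 - x`, `x + 3`, `x - 3`. -/
theorem c0_exc (x : ℕ) (I : Finset ℕ) : (I.filter fun y => hadj x y ∧ ¬ OT x y).card ≤ 3 := by
  have h : (I.filter fun y => hadj x y ∧ ¬ OT x y) ⊆ {3 - x, x + 3, x - 3} := by
    intro y hy
    rw [mem_filter] at hy
    obtain ⟨-, h1, h2⟩ := hy
    rw [mem_insert, mem_insert, mem_singleton]
    by_cases h3 : x + y = 3
    · left
      omega
    · by_cases h4 : Nat.dist x y = 3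
      · right
        unfold Nat.dist at h4
        omega
      · exact absurd (c0_type h1 h3 h4) h2
  exact (card_le_card h).trans card_le_three

/-- Proof. `y + (y - 3) = 2 y - 3` is odd, the difference is `3`. -/
theorem c0_edge {y : ℕ} (hy : 3 ≤ y) (hp : (2 * y - 3).Prime) : hadj y (y - 3) := by
  refine ⟨?_, ?_, ?_, ?_⟩
  · have h1 : y + (y - 3) = 2 * y - 3 := by omega
    rw [h1]
    exact hp
  · rw [Nat.odd_iff]
    omega
  · have h1 : Nat.dist y (y - 3) = 3 := by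
      unfold Nat.dist
      omega
    rw [h1]
    exact Nat.prime_three
  · have h1 : Nat.dist y (y - 3) = 3 := by
      unfold Nat.dist
      omega
    rw [h1, Nat.odd_iff]

/-- Proof. `SimpleGraph.edist_le` for the walk with one edge (or `edist_eq_one_iff_adj`). -/
theorem c0_one {lo n x y : ℕ} (h : hadj x y) (hx : x ∈ Icc lo n) (hy : y ∈ Icc lo n) :
    (HL lo n).edist x y ≤ 1 := by
  exact le_of_eq (SimpleGraph.edist_eq_one_iff_adj.2 ⟨h, hx, hy⟩)

/-- Proof. Triangle inequality. -/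
theorem c0_tri {lo n x y z i j k : ℕ} (h : (HL lo n).edist x y ≤ i) (h' : (HL lo n).edist y z ≤ j)
    (hk : i + j ≤ k) : (HL lo n).edist x z ≤ k := by
  refine (SimpleGraph.edist_triangle (v := y)).trans ((add_le_add h h').trans ?_)
  exact_mod_cast hk

/-- Proof. `c0_one`, `c0_tri`. -/
theorem c0_two {lo n x y z : ℕ} (h : hadj x y) (h' : hadj z y) (hx : x ∈ Icc lo n) (hy : y ∈ Icc lo n)
    (hz : z ∈ Icc lo n) : (HL lo n).edist x z ≤ 2 := by
  have h1 : (HL lo n).edist x y ≤ ((1 : ℕ) : ℕ∞) := by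
    rw [Nat.cast_one]
    exact c0_one h hx hy
  have h2 : (HL lo n).edist y z ≤ ((1 : ℕ) : ℕ∞) := by
    rw [Nat.cast_one]
    exact c0_one ((Pool.Agent.Lib.GoldbachGraph.hadj_comm _ _).1 h') hy hz
  have h3 := c0_tri (k := 2) h1 h2 le_rfl
  exact_mod_cast h3

/-- Proof. `Z ≥ 1`, since the interval `[Z, 2Z)` is not empty; `y < 2 Z ≤ w`. -/
theorem c0_mem {lo n Z y w : ℕ} (hlo : lo ≤ 1) (hy : y ∈ Ico Z (2 * Z)) (hw : w ∈ Icc (4 * Z) n) :
    w ∈ Icc lo n ∧ y ∈ Icc lo n := by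
  rw [mem_Ico] at hy
  rw [mem_Icc] at hw
  rw [mem_Icc, mem_Icc]
  omega

end Pool.Agent.Lib.H96G
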