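import Pool.Agent.Lib.H96G.C3

/-!
# Project H96G, chunk C5 (M): opposite parity, none divisible by three
-/

open Finset

namespace Pool.Agent.Lib.H96G

open Pool.Agent.Lib.GoldbachGraph (hadj)

/-- **C5.** Proof. Remove from `nb Z'' u` the at most `3` elements `y` not of opposite type to `u` (`c0_exc`) and those
not in `Γ'` (they are in `Icc (4Z') n \ Γ'`, at most `s`, field `co` of `hP'`): one `y` remains; `y ∈ Γ'`, `3 ∣ y`, `y`
has the parity of `v`. The field `ga` of `hP'`: `s + 3 < t ≤ (nb3 Z' y).card`; `C3` for `y`, `v`: `4`, and `1 + 4`. -/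
theorem C5 {lo n Z Z' Z'' : ℕ} (hlo : lo ≤ 1) {s t : ℝ} {Γ Γ' : Finset ℕ}
    (hP : PZ n Z s t Γ) (hP' : PZ n Z' s t Γ') (h1 : 4 * Z + 3 ≤ Z') (h2 : 4 * Z' + 3 ≤ Z'') (h3 : 2 * Z'' ≤ n)
    (hst : s + 3 < t) {u v : ℕ} (hu : u ∈ Icc lo n) (hv : v ∈ Γ)
    (hd : s + 3 < ((nb Z'' u).card : ℝ)) (hp : u % 2 ≠ v % 2) (hu3 : ¬ 3 ∣ u) (hv3 : ¬ 3 ∣ v) :
    (HL lo n).edist u v ≤ 5 := by
  classical
  obtain ⟨y, hy, hOT, hyG⟩ : ∃ y ∈ nb Z'' u, OT u y ∧ y ∈ Γ' := by
    by_contra hcon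
    have hsub : nb Z'' u ⊆ ((Ico Z'' (2 * Z'')).filter fun y => hadj u y ∧ ¬ OT u y) ∪ (Icc (4 * Z') n \ Γ') := by
      intro y hy
      have hy' := hy
      unfold nb at hy'
      rw [mem_filter, mem_Ico] at hy'
      rw [mem_union]
      by_cases h4 : OT u y
      · right
        rw [mem_sdiff, mem_Icc]
        refine ⟨by omega, fun h5 => hcon ⟨y, hy, h4, h5⟩⟩
      · left
        rw [mem_filter, mem_Ico]
        exact ⟨hy'.1, hy'.2, h4⟩
    have h4 := (card_le_card hsub).trans (card_union_le _ _)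
    have h5 := c0_exc u (Ico Z'' (2 * Z''))
    have h6 : ((nb Z'' u).card : ℝ) ≤ 3 + ((Icc (4 * Z') n \ Γ').card : ℝ) := by
      have h7 : (nb Z'' u).card ≤ 3 + (Icc (4 * Z') n \ Γ').card := by
        refine h4.trans (Nat.add_le_add_right ?_ _)
        exact h5
      exact_mod_cast h7
    have h7 := hP'.co
    linarith
  have hy' := hy
  unfold nb at hy'
  rw [mem_filter, mem_Ico] at hy'
  have h3y : 3 ∣ y := by
    obtain ⟨-, h4⟩ := hOT
    by_contra h5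
    exact hu3 (h4.2 h5)
  have hpar : y % 2 = v % 2 := by
    have h4 := hOT.1
    omega
  have hga := hP'.ga y hyG h3y
  have hyI : y ∈ Icc lo n := by
    rw [mem_Icc]
    omega
  have h5 : (HL lo n).edist y v ≤ ((4 : ℕ) : ℕ∞) := by
    have := C3 hlo hP h1 (by omega) hyI hv (by linarith) hpar h3y hv3
    exact_mod_cast this
  have h6 : (HL lo n).edist u y ≤ ((1 : ℕ) : ℕ∞) := by
    rw [Nat.cast_one]
    exact c0_one hy'.2 hu hyI
  have h7 := c0_tri (k := 5) h6 h5 le_rfl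
  exact_mod_cast h7

end Pool.Agent.Lib.H96G
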