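import Pool.Agent.Lib.H96G.C1
import Pool.Agent.Lib.H96G.C4
import Pool.Agent.Lib.H96G.C5

/-!
# Project H96G, chunk C6 (S/M): distances between generic vertices
-/

open Finset

namespace Pool.Agent.Lib.H96G

open Pool.Agent.Lib.GoldbachGraph (hadj)

/-- Three base scales `Z0`, `Z1`, `Z2` and the vertices generic for all of them. -/
structure Tri (n Z0 Z1 Z2 : ℕ) (s t : ℝ) (Γ0 Γ1 Γ2 : Finset ℕ) : Prop where
  P0 : PZ n Z0 s t Γ0
  P1 : PZ n Z1 s t Γ1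
  P2 : PZ n Z2 s t Γ2
  h01 : 4 * Z0 + 3 ≤ Z1
  h12 : 4 * Z1 + 3 ≤ Z2
  h2 : 100 * Z2 ≤ n
  hn : 100 ≤ n
  hs : 20 * s ≤ n
  hst : s + 3 < t

/-- **C6.** Proof. The four cases (same or different parity, same or different divisibility by `3`): `ST`: `C1` with
`P0`. `OT`: `C2` with `Z = Z0`, `Z' = Z1` (field `al` of `P1`). Same parity, different divisibility: `C3`, for `(u, v)` or
`(v, u)` (`SimpleGraph.edist_comm`), with `Z0`, `Z1` (field `ga` of `P1`). Different parity, both divisible by `3`: `C4`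
with `Z0`, `Z1`. Different parity, none divisible: `C5` (field `al` of `P2` for `u`). -/
theorem C6 {lo n Z0 Z1 Z2 : ℕ} (hlo : lo ≤ 1) {s t : ℝ} {Γ0 Γ1 Γ2 : Finset ℕ}
    (h : Tri n Z0 Z1 Z2 s t Γ0 Γ1 Γ2)
    {u v : ℕ} (hu0 : u ∈ Γ0) (hu1 : u ∈ Γ1) (hu2 : u ∈ Γ2) (hv0 : v ∈ Γ0) (hv1 : v ∈ Γ1)
    (hv2 : v ∈ Γ2) :
    (HL lo n).edist u v ≤ 5 ∧ (u % 2 = v % 2 → (HL lo n).edist u v ≤ 4) ∧
      (OT u v → (HL lo n).edist u v ≤ 3) := by
  have hs0 : 0 ≤ s := le_trans (Nat.cast_nonneg _) h.P0.co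
  have hmem : ∀ w ∈ Γ0, w ∈ Icc lo n := by
    intro w hw
    have h1 := h.P0.al w hw
    have h2 : (0 : ℝ) < ((nb Z0 w).card : ℝ) := by
      have := h.hst
      linarith
    have h3 : 0 < (nb Z0 w).card := by exact_mod_cast h2
    obtain ⟨y, hy⟩ := card_pos.1 h3
    unfold nb at hy
    exact (c0_mem hlo (mem_filter.1 hy).1 (h.P0.sub hw)).1
  have hu := hmem u hu0
  have hv := hmem v hv0
  have a01 := h.h01
  have a12 := h.h12
  have a2 := h.h2
  have hst := h.hst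
  have nbu : s + 3 < ((nb Z1 u).card : ℝ) := lt_of_lt_of_le hst (h.P1.al u hu1)
  have nbv : s + 3 < ((nb Z1 v).card : ℝ) := lt_of_lt_of_le hst (h.P1.al v hv1)
  have h45 : (4 : ℕ∞) ≤ 5 := by norm_num
  have h35 : (3 : ℕ∞) ≤ 5 := by norm_num
  by_cases hp : u % 2 = v % 2
  · have hno : ¬ OT u v := fun h1 => h1.1 hp
    have key : (HL lo n).edist u v ≤ 4 := by
      by_cases hu3 : 3 ∣ u
      · by_cases hv3 : 3 ∣ v
        · exact C1 hlo h.P0 h.hn (by omega) h.hs hu0 hv0 ⟨hp, ⟨fun _ => hv3, fun _ => hu3⟩⟩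
        · exact C3 hlo h.P0 a01 (by omega) hu hv0 (lt_of_lt_of_le hst (h.P1.ga u hu1 hu3)) hp hu3 hv3
      · by_cases hv3 : 3 ∣ v
        · rw [SimpleGraph.edist_comm]
          exact C3 hlo h.P0 a01 (by omega) hv hu0 (lt_of_lt_of_le hst (h.P1.ga v hv1 hv3)) hp.symm hv3 hu3
        · exact C1 hlo h.P0 h.hn (by omega) h.hs hu0 hv0 ⟨hp, ⟨fun h1 => absurd h1 hu3, fun h1 => absurd h1 hv3⟩⟩
    exact ⟨key.trans h45, fun _ => key, fun h1 => absurd h1 hno⟩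
  · by_cases hOT : OT u v
    · have key : (HL lo n).edist u v ≤ 3 := C2 hlo h.P0 a01 (by omega) hu0 hv nbv hOT
      exact ⟨key.trans h35, fun h1 => absurd h1 hp, fun _ => key⟩
    · have key : (HL lo n).edist u v ≤ 5 := by
        by_cases hu3 : 3 ∣ u
        · have hv3 : 3 ∣ v := by
            by_contra h1
            exact hOT ⟨hp, ⟨fun _ => h1, fun _ => hu3⟩⟩
          exact C4 hlo h.P0 a01 (by omega) hu hv (lt_of_lt_of_le hst (h.P1.ga u hu1 hu3)) nbv hp hu3 hv3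
        · have hv3 : ¬ 3 ∣ v := by
            intro h1
            exact hOT ⟨hp, ⟨fun h2 => absurd h2 hu3, fun h2 => absurd h1 h2⟩⟩
          exact C5 hlo h.P0 h.P1 a01 a12 (by omega) hst hu hv0 (lt_of_lt_of_le hst (h.P2.al u hu2)) hp hu3 hv3
      exact ⟨key, fun h1 => absurd h1 hp, fun h1 => absurd h1 hOT⟩

end Pool.Agent.Lib.H96G
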