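import Pool.Agent.Lib.H96G.B2
import Pool.Agent.Lib.H96G.C6

/-!
# Project H96G, chunk D2 (M): the base scales
-/

open Finset

namespace Pool.Agent.Lib.H96G

/-- Proof. Directly. -/
theorem D2_mono {n Z : ℕ} {s t t' : ℝ} {Γ : Finset ℕ} (h : PZ n Z s t Γ) (ht : t' ≤ t) :
    PZ n Z s t' Γ :=
  ⟨h.sub, h.co, fun u hu => ht.trans (h.al u hu), h.be, fun u hu h3 => ht.trans (h.ga u hu h3)⟩

/-- Proof. `Z = M * ⌈n^(1-e)/M⌉₊`: `n^(1-e) ≤ Z ≤ n^(1-e) + M`, `M ≤ n^(1/2) ≤ n^(1-e)`. -/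
theorem D2_Z {n M : ℕ} {L : ℕ → ℤ → ℝ} {c B b : ℝ} (hN : Nm n b) (h : GIn n M L c B b)
    (e : ℝ) (he : e ≤ 1 / 2) :
    ∃ Z : ℕ, M ∣ Z ∧ (n : ℝ) ^ (1 - e) ≤ Z ∧ (Z : ℝ) ≤ 2 * (n : ℝ) ^ (1 - e) := by
  have hM : (0 : ℝ) < M := by exact_mod_cast h.M1
  have hp := hN.ppos (1 - e)
  refine ⟨M * ⌈(n : ℝ) ^ (1 - e) / M⌉₊, Dvd.intro _ rfl, ?_, ?_⟩
  · have h1 := Nat.le_ceil ((n : ℝ) ^ (1 - e) / M)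
    rw [div_le_iff₀ hM] at h1
    push_cast
    linarith
  · have h1 := Nat.ceil_lt_add_one (a := (n : ℝ) ^ (1 - e) / M) (by positivity)
    push_cast
    have h2 : (M : ℝ) * ((⌈(n : ℝ) ^ (1 - e) / M⌉₊ : ℕ) : ℝ) ≤ M * ((n : ℝ) ^ (1 - e) / M + 1) :=
      mul_le_mul_of_nonneg_left h1.le hM.le
    have h3 : (M : ℝ) * ((n : ℝ) ^ (1 - e) / M + 1) = (n : ℝ) ^ (1 - e) + M := by
      field_simp
    have h4 : (n : ℝ) ^ (1 / 2 : ℝ) ≤ (n : ℝ) ^ (1 - e) := hN.mono (by linarith)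
    have h5 := h.Mn
    linarith

/-- **D2.** Proof. `Z0` from `D2_Z` with `e = B`, `Z1 = 8 Z0`, `Z2 = 64 Z0` (`Z0 ≥ 1`); `B2` for the three of them, with
`s = n^(1-c/2+3B)`, and `t = n^(1-B-4b) ≤ Z n^(-4b)` (`D2_mono`). `100 Z2 ≤ 12800 n^(1-B) ≤ n`, `100 ≤ n`,
`20 s ≤ n`, `s + 3 < t` by `Nm.cst` (`c ≥ 100 B`, `B ≥ 100 b`, `c ≤ 1`). -/
theorem D2 {n M : ℕ} {L : ℕ → ℤ → ℝ} {c B b : ℝ} (hN : Nm n b) (h : GIn n M L c B b) :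
    ∃ (Z0 Z1 Z2 : ℕ) (Γ0 Γ1 Γ2 : Finset ℕ), M ∣ Z0 ∧ (n : ℝ) ^ (1 - B) ≤ Z0 ∧
      (Z0 : ℝ) ≤ 2 * (n : ℝ) ^ (1 - B) ∧ Z2 = 64 * Z0 ∧
      Tri n Z0 Z1 Z2 ((n : ℝ) ^ (1 - c / 2 + 3 * B)) ((n : ℝ) ^ (1 - B - 4 * b)) Γ0 Γ1 Γ2 := by
  have hb := h.b_pos
  have hbB := h.hb
  have hBc := h.hB
  have hc := h.hc
  obtain ⟨Z, hMZ, hlo, hhi⟩ := D2_Z hN h B (by linarith)
  have hZ1 : 1 ≤ Z := by
    by_contra h0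
    have h1 : Z = 0 := by omega
    rw [h1] at hlo
    have := hN.ppos (1 - B)
    push_cast at hlo
    linarith
  have hZR : (1 : ℝ) ≤ Z := by exact_mod_cast hZ1
  have key : ∀ W : ℕ, M ∣ W → Z ≤ W → ∃ Γ : Finset ℕ, PZ n W ((n : ℝ) ^ (1 - c / 2 + 3 * B)) ((n : ℝ) ^ (1 - B - 4 * b)) Γ := by
    intro W hMW hZW
    have hZW' : (Z : ℝ) ≤ W := by exact_mod_cast hZW
    obtain ⟨Γ, hΓ⟩ := B2 hN h hMW (hlo.trans hZW')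
    refine ⟨Γ, D2_mono hΓ ?_⟩
    have h1 : (n : ℝ) ^ (1 - B - 4 * b) = (n : ℝ) ^ (1 - B) * (n : ℝ) ^ (-(4 * b)) := by
      rw [hN.mul]
      congr 1
    rw [h1]
    exact mul_le_mul_of_nonneg_right (hlo.trans hZW') (hN.ppos _).le
  obtain ⟨Γ0, h0⟩ := key Z hMZ le_rfl
  obtain ⟨Γ1, h1⟩ := key (8 * Z) (Dvd.dvd.mul_left hMZ 8) (by omega)
  obtain ⟨Γ2, h2⟩ := key (64 * Z) (Dvd.dvd.mul_left hMZ 64) (by omega)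
  refine ⟨Z, 8 * Z, 64 * Z, Γ0, Γ1, Γ2, hMZ, hlo, hhi, rfl, ⟨h0, h1, h2, by omega, by omega, ?_, ?_, ?_, ?_⟩⟩
  · have h3 : (12800 : ℝ) * (n : ℝ) ^ (1 - B) ≤ (n : ℝ) ^ (1 : ℝ) := hN.cst (by norm_num) (by linarith)
    rw [Real.rpow_one] at h3
    have h4 : (100 : ℝ) * (64 * (Z : ℝ)) ≤ n := by linarith
    exact_mod_cast h4
  · have h3 : (100 : ℝ) * (n : ℝ) ^ (0 : ℝ) ≤ (n : ℝ) ^ (1 : ℝ) := hN.cst (by norm_num) (by linarith)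
    rw [Real.rpow_one, Real.rpow_zero, mul_one] at h3
    exact_mod_cast h3
  · have h3 : (20 : ℝ) * (n : ℝ) ^ (1 - c / 2 + 3 * B) ≤ (n : ℝ) ^ (1 : ℝ) := hN.cst (by norm_num) (by linarith)
    rw [Real.rpow_one] at h3
    exact h3
  · have h3 : (5 : ℝ) * (n : ℝ) ^ (1 - c / 2 + 3 * B) ≤ (n : ℝ) ^ (1 - B - 4 * b) := hN.cst (by norm_num) (by linarith)
    have h4 : (n : ℝ) ^ (0 : ℝ) ≤ (n : ℝ) ^ (1 - c / 2 + 3 * B) := hN.mono (by linarith)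
    rw [Real.rpow_zero] at h4
    linarith

end Pool.Agent.Lib.H96G
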