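import Pool.Agent.Lib.H96G.Defs

/-!
# Project H96G: arithmetic of the powers of `n`
-/

open Finset

namespace Pool.Agent.Lib.H96G

/-- `Nm n b` holds for all large `n`. -/
theorem nm_ev (b : ℝ) (hb : 0 < b) : ∃ n0 : ℕ, ∀ n : ℕ, n0 ≤ n → ∀ b' : ℝ, b ≤ b' → Nm n b' := by
  have h1 : (fun x : ℝ => 10 ^ 6 * (Real.log (8 * x)) ^ 6) =o[Filter.atTop] fun x => x ^ (b / 2) := by
    have h2 : (fun x : ℝ => Real.log (8 * x)) =o[Filter.atTop] fun x => x ^ (b / 12) := by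
      have h3 : (fun x : ℝ => Real.log (8 * x)) =ᶠ[Filter.atTop] fun x => Real.log 8 + Real.log x := by
        filter_upwards [Filter.eventually_gt_atTop 0] with x hx
        rw [Real.log_mul (by norm_num) hx.ne']
      refine h3.trans_isLittleO ?_
      refine Asymptotics.IsLittleO.add ?_ (isLittleO_log_rpow_atTop (by positivity))
      refine Asymptotics.isLittleO_const_left.2 (Or.inr ?_)
      exact tendsto_norm_atTop_atTop.comp (tendsto_rpow_atTop (by positivity))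
    have h4 := (h2.pow (n := 6) (by norm_num)).const_mul_left (10 ^ 6 : ℝ)
    refine h4.congr' (Filter.EventuallyEq.refl _ _) ?_
    filter_upwards [Filter.eventually_gt_atTop 0] with x hx
    rw [← Real.rpow_natCast, ← Real.rpow_mul hx.le]
    congr 1
    push_cast
    ring
  have h5 := (h1.def (show (0 : ℝ) < 1 by norm_num))
  have h6 := tendsto_natCast_atTop_atTop (R := ℝ) |>.eventually h5
  obtain ⟨n0, hn0⟩ := Filter.eventually_atTop.mp h6
  refine ⟨max n0 1, fun n hn b' hb' => ⟨by linarith, le_trans (le_max_right _ _) hn, ?_⟩⟩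
  have h7 := hn0 n (le_trans (le_max_left _ _) hn)
  have hn1 : (1 : ℝ) ≤ n := by exact_mod_cast le_trans (le_max_right _ _) hn
  rw [one_mul, Real.norm_of_nonneg (Real.rpow_nonneg (by linarith) _)] at h7
  refine (le_trans (le_abs_self _) h7).trans ?_
  exact Real.rpow_le_rpow_of_exponent_le hn1 (by linarith)

variable {n : ℕ} {b : ℝ}

theorem Nm.pos (h : Nm n b) : (0 : ℝ) < n := by
  have := h.n_pos
  exact_mod_cast this

theorem Nm.one_le (h : Nm n b) : (1 : ℝ) ≤ n := by exact_mod_cast h.n_pos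

theorem Nm.ell (h : Nm n b) : 1 ≤ Real.log (8 * n) := by
  have h1 : Real.log 8 ≤ Real.log (8 * n) :=
    Real.log_le_log (by norm_num) (by linarith [h.one_le])
  have h2 : (1 : ℝ) ≤ Real.log 8 := by
    rw [Real.le_log_iff_exp_le (by norm_num)]
    linarith [Real.exp_one_lt_d9]
  linarith

/-- monotone in the exponent -/
theorem Nm.mono (h : Nm n b) {x y : ℝ} (hxy : x ≤ y) : (n : ℝ) ^ x ≤ (n : ℝ) ^ y :=
  Real.rpow_le_rpow_of_exponent_le h.one_le hxy

theorem Nm.mul (h : Nm n b) (x y : ℝ) : (n : ℝ) ^ x * (n : ℝ) ^ y = (n : ℝ) ^ (x + y) :=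
  (Real.rpow_add h.pos x y).symm

theorem Nm.ppos (h : Nm n b) (x : ℝ) : 0 < (n : ℝ) ^ x := Real.rpow_pos_of_pos h.pos x

/-- constants and logarithms are absorbed -/
theorem Nm.abs (h : Nm n b) {K x y : ℝ} (hK : K ≤ 10 ^ 6 * (Real.log (8 * n)) ^ 6)
    (hxy : x + b / 2 ≤ y) : K * (n : ℝ) ^ x ≤ (n : ℝ) ^ y := by
  calc K * (n : ℝ) ^ x ≤ (n : ℝ) ^ (b / 2) * (n : ℝ) ^ x :=
        mul_le_mul_of_nonneg_right (hK.trans h.big) (h.ppos x).le
    _ = (n : ℝ) ^ (b / 2 + x) := h.mul _ _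
    _ ≤ (n : ℝ) ^ y := h.mono (by linarith)

/-- constants are absorbed -/
theorem Nm.cst (h : Nm n b) {K x y : ℝ} (hK : K ≤ 10 ^ 6) (hxy : x + b / 2 ≤ y) :
    K * (n : ℝ) ^ x ≤ (n : ℝ) ^ y := by
  refine h.abs (hK.trans ?_) hxy
  have : (1 : ℝ) ≤ (Real.log (8 * n)) ^ 6 := one_le_pow₀ h.ell
  linarith

/-- a constant times a power of the logarithm is absorbed -/
theorem Nm.lg (h : Nm n b) {K x y : ℝ} {j : ℕ} (hj : j ≤ 6) (hK : K ≤ 10 ^ 6)
    (hxy : x + b / 2 ≤ y) : K * (Real.log (8 * n)) ^ j * (n : ℝ) ^ x ≤ (n : ℝ) ^ y := by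
  refine h.abs ?_ hxy
  exact mul_le_mul hK (pow_le_pow_right₀ h.ell hj) (pow_nonneg (by linarith [h.ell]) _) (by norm_num)

end Pool.Agent.Lib.H96G
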