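import Pool.Agent.Lib.H96G.Num

/-!
# Project H96G, chunk A0 (M): the operator bound, scaled and in dual form
-/

open Finset

namespace Pool.Agent.Lib.H96G

/-- **A0, scaled form.** Proof. Apply the field `op` to `f' x = f x / F` for `x ∈ [2X, 3X)`, `0` else, and to
`g' y = g y / G` for `y ∈ [Z, 2Z)`, `0` else. -/
theorem A0_scale {n M : ℕ} {L : ℕ → ℤ → ℝ} {c B b : ℝ} (h : GIn n M L c B b) {X Z : ℕ}
    (hs : Sc n M B X Z) (f g : ℕ → ℝ) (F G : ℝ) (hF : 0 < F) (hG : 0 < G)
    (hf : ∀ x ∈ Ico (2 * X) (3 * X), |f x| ≤ F) (hg : ∀ y ∈ Ico Z (2 * Z), |g y| ≤ G) :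
    |∑ x ∈ Ico (2 * X) (3 * X), ∑ y ∈ Ico Z (2 * Z), f x * g y * (kp x y - km (L X) x y)| ≤
      F * G * (n : ℝ) ^ (2 - c) := by
  classical
  have h1 := h.op X Z hs (fun x => if x ∈ Ico (2 * X) (3 * X) then f x / F else 0)
    (fun y => if y ∈ Ico Z (2 * Z) then g y / G else 0)
    (fun x => by
      by_cases hx : x ∈ Ico (2 * X) (3 * X)
      · simp only [if_pos hx]
        rw [abs_div, abs_of_pos hF, div_le_one hF]
        exact hf x hx
      · simp only [if_neg hx]
        rw [abs_zero]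
        exact zero_le_one)
    (fun y => by
      by_cases hy : y ∈ Ico Z (2 * Z)
      · simp only [if_pos hy]
        rw [abs_div, abs_of_pos hG, div_le_one hG]
        exact hg y hy
      · simp only [if_neg hy]
        rw [abs_zero]
        exact zero_le_one)
  have e1 : ∑ x ∈ Ico (2 * X) (3 * X), ∑ y ∈ Ico Z (2 * Z), f x * g y * (kp x y - km (L X) x y) =
      F * G * ∑ x ∈ Ico (2 * X) (3 * X), ∑ y ∈ Ico Z (2 * Z),
        (if x ∈ Ico (2 * X) (3 * X) then f x / F else 0) *
        (if y ∈ Ico Z (2 * Z) then g y / G else 0) * (kp x y - km (L X) x y) := by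
    rw [Finset.mul_sum]
    refine Finset.sum_congr rfl fun x hx => ?_
    rw [Finset.mul_sum]
    refine Finset.sum_congr rfl fun y hy => ?_
    rw [if_pos hx, if_pos hy]
    field_simp
  rw [e1, abs_mul, abs_of_pos (mul_pos hF hG)]
  exact mul_le_mul_of_nonneg_left h1 (mul_pos hF hG).le

open Classical in
/-- **A0, dual form.** Proof. `S x = ∑_y g y (kp x y - km (L X) x y)`; `A0_scale` with `f x = 1` if `S x > t`, `-1`
if `S x < -t`, `0` else (`F = 1`): `∑_x f x S x = ∑_{|S x| > t} |S x| ≥ t · #{|S x| > t}`. -/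
theorem A0_dual {n M : ℕ} {L : ℕ → ℤ → ℝ} {c B b : ℝ} (h : GIn n M L c B b) {X Z : ℕ}
    (hs : Sc n M B X Z) (g : ℕ → ℝ) (G t : ℝ) (hG : 0 < G) (ht : 0 ≤ t)
    (hg : ∀ y ∈ Ico Z (2 * Z), |g y| ≤ G) :
    t * (((Ico (2 * X) (3 * X)).filter fun x =>
      t < |∑ y ∈ Ico Z (2 * Z), g y * (kp x y - km (L X) x y)|).card : ℝ) ≤
      G * (n : ℝ) ^ (2 - c) := by
  set S : ℕ → ℝ := fun x => ∑ y ∈ Ico Z (2 * Z), g y * (kp x y - km (L X) x y) with hS
  set f : ℕ → ℝ := fun x => if t < S x then 1 else if S x < -t then -1 else 0 with hf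
  have hf1 : ∀ x ∈ Ico (2 * X) (3 * X), |f x| ≤ 1 := by
    intro x _
    rw [hf]
    beta_reduce
    split_ifs <;> simp
  have h1 := A0_scale h hs f g 1 G one_pos hG hf1 hg
  rw [one_mul] at h1
  have e1 : ∑ x ∈ Ico (2 * X) (3 * X), ∑ y ∈ Ico Z (2 * Z), f x * g y * (kp x y - km (L X) x y) =
      ∑ x ∈ Ico (2 * X) (3 * X), f x * S x := by
    refine Finset.sum_congr rfl fun x _ => ?_
    rw [hS]
    beta_reduce
    rw [Finset.mul_sum]
    exact Finset.sum_congr rfl fun y _ => by ring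
  rw [e1] at h1
  have h2 : ∀ x ∈ Ico (2 * X) (3 * X), (if t < |S x| then t else 0) ≤ f x * S x := by
    intro x _
    rw [hf]
    beta_reduce
    by_cases a1 : t < S x
    · rw [if_pos a1]
      split_ifs
      · linarith
      · linarith
    · rw [if_neg a1]
      by_cases a2 : S x < -t
      · rw [if_pos a2]
        split_ifs
        · linarith
        · linarith
      · rw [if_neg a2]
        have a3 : ¬ t < |S x| := by
          intro a4
          rcases lt_abs.1 a4 with a5 | a5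
          · exact a1 a5
          · exact a2 (by linarith)
        rw [if_neg a3]
        simp
  have h3 := Finset.sum_le_sum h2
  rw [← Finset.sum_filter, Finset.sum_const, nsmul_eq_mul] at h3
  calc t * (((Ico (2 * X) (3 * X)).filter fun x => t < |S x|).card : ℝ)
      = (((Ico (2 * X) (3 * X)).filter fun x => t < |S x|).card : ℝ) * t := mul_comm _ _
    _ ≤ _ := h3
    _ ≤ _ := (le_abs_self _).trans h1

end Pool.Agent.Lib.H96G
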