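import Pool.Agent.Lib.H96G.A0
import Pool.Agent.Lib.H96G.A1

/-!
# Project H96G, chunk A2 (M): mixed correlations are large for most pairs
-/

open Finset

namespace Pool.Agent.Lib.H96G

open Classical in
/-- **A2.** Proof. For `x' ∈ [2X', 3X')` put `g y = km (L X') x' y`, `|g| ≤ n^(2b)` (`a1_km_abs` for `X'`). A pair
`(x, x')` of the same type with `dx (L X') Z x x' < Z n^(-b)/2` satisfies either the inequality of the field `m4` (at
most `n^(2-c)` pairs) or `Z n^(-b)/2 < |∑_y g y (kp x y - km (L X) x y)|` (the sum over `y` of `km (L X) x y * g y`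
is then `≥ Z n^(-b)`; `dx` is the sum of `kp x y * g y`). By `A0_dual` with `t = Z n^(-b)/2` (`> 0`), `G = n^(2b)`:
at most `2 n^(2b) n^(2-c) n^b / Z ≤ 2 n^(1-c+3b+B)` such `x` for each `x'` (`Z ≥ n^(1-B)`). There are `X' ≤ n` values
of `x'` (count the pairs fibrewise over the second coordinate). Total at most
`n^(2-c) + 2 n^(2-c+3b+B) ≤ n^(2-c+2B)` (`Nm.cst`, `100 b ≤ B`). -/
theorem A2 {n M : ℕ} {L : ℕ → ℤ → ℝ} {c B b : ℝ} (hN : Nm n b) (h : GIn n M L c B b)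
    {X X' Z : ℕ} (hs : Sc n M B X Z) (hs' : Sc n M B X' Z) :
    (((Ico (2 * X) (3 * X) ×ˢ Ico (2 * X') (3 * X')).filter fun p => ST p.1 p.2 ∧
      dx (L X') Z p.1 p.2 < Z * (n : ℝ) ^ (-b) / 2).card : ℝ) ≤ (n : ℝ) ^ (2 - c + 2 * B) := by
  have hn := hN.n_pos
  have hZ := a1_Z_pos hn hs
  have hZ' : (0 : ℝ) < Z := by exact_mod_cast hZ
  have hb0 := h.b_pos
  have hbB := h.hb
  obtain ⟨t, ht⟩ : ∃ t : ℝ, t = Z * (n : ℝ) ^ (-b) / 2 := ⟨_, rfl⟩
  have ht0 : 0 < t := by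
    rw [ht]
    have := hN.ppos (-b)
    positivity
  have htl : (n : ℝ) ^ (1 - B - b) / 2 ≤ t := by
    have h1 := mul_le_mul_of_nonneg_right hs.lo (hN.ppos (-b)).le
    rw [hN.mul, ← sub_eq_add_neg] at h1
    rw [ht]
    linarith
  have hfib : ∀ x' ∈ Ico (2 * X') (3 * X'), (((Ico (2 * X) (3 * X)).filter fun x =>
      t < |∑ y ∈ Ico Z (2 * Z), km (L X') x' y * (kp x y - km (L X) x y)|).card : ℝ) ≤
        2 * (n : ℝ) ^ (1 - c + 3 * b + B) := by
    intro x' hx'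
    have h1 := A0_dual h hs (fun y => km (L X') x' y) ((n : ℝ) ^ (2 * b)) t (hN.ppos _) ht0.le
      (fun y hy => a1_km_abs hN h hs' hx' hy)
    rw [hN.mul] at h1
    have h2 := (mul_le_mul_of_nonneg_right htl (Nat.cast_nonneg
      ((Ico (2 * X) (3 * X)).filter fun x =>
        t < |∑ y ∈ Ico Z (2 * Z), km (L X') x' y * (kp x y - km (L X) x y)|).card)).trans h1
    have h3 : (n : ℝ) ^ (2 * b + (2 - c)) = (n : ℝ) ^ (1 - B - b) * (n : ℝ) ^ (1 - c + 3 * b + B) := by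
      rw [hN.mul]
      congr 1
      ring
    rw [h3] at h2
    refine le_of_mul_le_mul_left (a := (n : ℝ) ^ (1 - B - b)) ?_ (hN.ppos _)
    linarith
  have hT : ((Ico (2 * X) (3 * X) ×ˢ Ico (2 * X') (3 * X')).filter fun p => ST p.1 p.2 ∧
      dx (L X') Z p.1 p.2 < Z * (n : ℝ) ^ (-b) / 2) ⊆
      ((Ico (2 * X) (3 * X) ×ˢ Ico (2 * X') (3 * X')).filter fun p => ST p.1 p.2 ∧
        ∑ y ∈ Ico Z (2 * Z), km (L X) p.1 y * km (L X') p.2 y < Z * (n : ℝ) ^ (-b)) ∪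
      ((Ico (2 * X) (3 * X) ×ˢ Ico (2 * X') (3 * X')).filter fun p =>
        t < |∑ y ∈ Ico Z (2 * Z), km (L X') p.2 y * (kp p.1 y - km (L X) p.1 y)|) := by
    intro p hp
    rw [mem_filter] at hp
    obtain ⟨hp1, hp2, hp3⟩ := hp
    rw [mem_union, mem_filter, mem_filter]
    by_cases h5 : ∑ y ∈ Ico Z (2 * Z), km (L X) p.1 y * km (L X') p.2 y < Z * (n : ℝ) ^ (-b)
    · exact Or.inl ⟨hp1, hp2, h5⟩
    · refine Or.inr ⟨hp1, ?_⟩
      have h6 : ∑ y ∈ Ico Z (2 * Z), km (L X') p.2 y * (kp p.1 y - km (L X) p.1 y) =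
          dx (L X') Z p.1 p.2 - ∑ y ∈ Ico Z (2 * Z), km (L X) p.1 y * km (L X') p.2 y := by
        unfold dx
        rw [← sum_sub_distrib]
        exact sum_congr rfl (fun y _ => by ring)
      rw [h6, lt_abs]
      right
      rw [not_lt] at h5
      linarith
  have h2c : (((Ico (2 * X) (3 * X) ×ˢ Ico (2 * X') (3 * X')).filter fun p =>
        t < |∑ y ∈ Ico Z (2 * Z), km (L X') p.2 y * (kp p.1 y - km (L X) p.1 y)|).card : ℝ) ≤
      2 * (n : ℝ) ^ (2 - c + 3 * b + B) := by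
    rw [card_filter, sum_product_right, Nat.cast_sum]
    have h7 : ∀ x' ∈ Ico (2 * X') (3 * X'), ((∑ x ∈ Ico (2 * X) (3 * X),
        if t < |∑ y ∈ Ico Z (2 * Z), km (L X') x' y * (kp x y - km (L X) x y)| then 1 else 0 : ℕ) : ℝ) ≤
          2 * (n : ℝ) ^ (1 - c + 3 * b + B) := by
      intro x' hx'
      rw [← card_filter]
      exact hfib x' hx'
    refine (sum_le_sum h7).trans ?_
    rw [sum_const, nsmul_eq_mul, Nat.card_Ico]
    have h8 : ((3 * X' - 2 * X' : ℕ) : ℝ) ≤ n := by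
      have := hs'.hi
      have h9 : 3 * X' - 2 * X' ≤ n := by omega
      exact_mod_cast h9
    have h10 : (n : ℝ) ^ (2 - c + 3 * b + B) = n * (n : ℝ) ^ (1 - c + 3 * b + B) := by
      have h11 := hN.mul 1 (1 - c + 3 * b + B)
      rw [Real.rpow_one] at h11
      rw [h11]
      congr 1
      ring
    rw [h10]
    have h12 := hN.ppos (1 - c + 3 * b + B)
    have h13 := mul_le_mul_of_nonneg_right h8 (show 0 ≤ 2 * (n : ℝ) ^ (1 - c + 3 * b + B) by linarith)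
    linarith
  have h1c := h.m4 X X' Z hs hs'
  have h3c : (((Ico (2 * X) (3 * X) ×ˢ Ico (2 * X') (3 * X')).filter fun p => ST p.1 p.2 ∧
      dx (L X') Z p.1 p.2 < Z * (n : ℝ) ^ (-b) / 2).card : ℝ) ≤
      (n : ℝ) ^ (2 - c) + 2 * (n : ℝ) ^ (2 - c + 3 * b + B) := by
    refine le_trans ?_ (add_le_add h1c h2c)
    exact_mod_cast (card_le_card hT).trans (card_union_le _ _)
  have h4c : (n : ℝ) ^ (2 - c) ≤ (n : ℝ) ^ (2 - c + 3 * b + B) := hN.mono (by linarith)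
  have h5c : 3 * (n : ℝ) ^ (2 - c + 3 * b + B) ≤ (n : ℝ) ^ (2 - c + 2 * B) :=
    hN.cst (by norm_num) (by linarith)
  linarith

end Pool.Agent.Lib.H96G
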