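import Pool.Agent.Lib.H96G.A2

/-!
# Project H96G, chunk A3 (S/M): Markov's inequality
-/

open Finset

namespace Pool.Agent.Lib.H96G

open Classical in
/-- **A3.** Proof. The number of pairs in `A2` is `∑_{x ∈ [2X,3X)} (bad n L b X' Z x).card` (`card_filter_product`,
or `Finset.card_sigma`), so the number of `x` with more than `n^(1-c/2)` bad `x'` times `n^(1-c/2)` is at most
`n^(2-c+2B)`. -/
theorem A3 {n M : ℕ} {L : ℕ → ℤ → ℝ} {c B b : ℝ} (hN : Nm n b) (h : GIn n M L c B b)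
    {X X' Z : ℕ} (hs : Sc n M B X Z) (hs' : Sc n M B X' Z) :
    (((Ico (2 * X) (3 * X)).filter fun x =>
      ¬ ((bad n L b X' Z x).card : ℝ) ≤ (n : ℝ) ^ (1 - c / 2)).card : ℝ) ≤
      (n : ℝ) ^ (1 - c / 2 + 2 * B) := by
  classical
  have h1 := A2 hN h hs hs'
  set A : Finset ℕ := Ico (2 * X) (3 * X) with hA
  set W : Finset ℕ := A.filter fun x => ¬ ((bad n L b X' Z x).card : ℝ) ≤ (n : ℝ) ^ (1 - c / 2) with hW
  have h2 : (((A ×ˢ Ico (2 * X') (3 * X')).filter fun p => ST p.1 p.2 ∧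
      dx (L X') Z p.1 p.2 < Z * (n : ℝ) ^ (-b) / 2).card : ℝ) = ∑ x ∈ A, ((bad n L b X' Z x).card : ℝ) := by
    rw [Finset.card_filter, Finset.sum_product]
    push_cast
    refine Finset.sum_congr rfl fun x _ => ?_
    rw [bad, Finset.card_filter]
    push_cast
    rfl
  rw [h2] at h1
  have h3 : (W.card : ℝ) * (n : ℝ) ^ (1 - c / 2) ≤ ∑ x ∈ A, ((bad n L b X' Z x).card : ℝ) := by
    calc (W.card : ℝ) * (n : ℝ) ^ (1 - c / 2) = ∑ _x ∈ W, (n : ℝ) ^ (1 - c / 2) := by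
          rw [Finset.sum_const, nsmul_eq_mul]
      _ ≤ ∑ x ∈ W, ((bad n L b X' Z x).card : ℝ) :=
          Finset.sum_le_sum fun x hx => (not_le.1 (Finset.mem_filter.1 hx).2).le
      _ ≤ ∑ x ∈ A, ((bad n L b X' Z x).card : ℝ) :=
          Finset.sum_le_sum_of_subset_of_nonneg (Finset.filter_subset _ _) fun _ _ _ => Nat.cast_nonneg _
  have h4 : (n : ℝ) ^ (2 - c + 2 * B) = (n : ℝ) ^ (1 - c / 2 + 2 * B) * (n : ℝ) ^ (1 - c / 2) := by
    rw [hN.mul]
    congr 1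
    ring
  rw [h4] at h1
  exact le_of_mul_le_mul_right (h3.trans h1) (hN.ppos _)

end Pool.Agent.Lib.H96G
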