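import Pool.Agent.Lib.H96G.Final
import Pool.Agent.Lib.H24Q.M9

/-!
# Project H96G: assembly of the input `GIn`

`F_all` (module F), the operator bound `OPS` (module STAR, `H9S`) and the bound `LKB` for the projections give `GIn` at all
large `n`.
-/

open Finset

namespace Pool.Agent.Lib.H96G

open Pool.Agent.Lib.H68T (lp Lk)
open Pool.Agent.Lib.H18Q (RegP)
open Pool.Agent.Lib.H24Q (MT KL Low3 F_all)

/-- The operator bound. -/
def OPS (K0 : ℝ) : Prop :=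
  ∀ Cr : ℝ, 1 ≤ Cr → ∃ c : ℝ, 0 < c ∧ ∃ n0 : ℕ, ∀ n Q : ℕ, n0 ≤ n →
    K0 * Real.log Q ≤ Real.log n → Real.log n ≤ Cr * Real.log Q →
    (∀ Y : ℕ, n ≤ Y ^ 2 → Y ≤ n ^ 2 → RegP K0 Q Y) →
    ∀ X Z : ℕ, n ≤ Z ^ 2 → 2 * Z ≤ X → X ≤ n → ∀ f g : ℕ → ℝ, (∀ x, |f x| ≤ 1) →
      (∀ y, |g y| ≤ 1) →
      |∑ x ∈ Ico (2 * X) (3 * X), ∑ y ∈ Ico Z (2 * Z),
        f x * g y * (kp x y - km (Lk Q (X / Q ^ 2)) x y)| ≤ (n : ℝ) ^ (2 - c)

/-- The pointwise bound for the projections. -/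
def LKB (K0 : ℝ) : Prop :=
  ∀ Cr ep : ℝ, 1 ≤ Cr → 0 < ep → ∃ n0 : ℕ, ∀ n Q : ℕ, n0 ≤ n →
    K0 * Real.log Q ≤ Real.log n → Real.log n ≤ Cr * Real.log Q →
    (∀ Y : ℕ, n ≤ Y ^ 2 → Y ≤ n ^ 2 → RegP K0 Q Y) →
    ∀ X : ℕ, n ≤ X ^ 2 → X ≤ n → ∀ m : ℤ, (X : ℤ) ≤ m → m ≤ 4 * X →
      |Lk Q (X / Q ^ 2) m| ≤ (n : ℝ) ^ ep

theorem sq_of_lo {n Z : ℕ} {B : ℝ} (hn : 1 ≤ n) (hB : B ≤ 1 / 2) (h : (n : ℝ) ^ (1 - B) ≤ Z) :
    n ≤ Z ^ 2 := by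
  have hn1 : (1 : ℝ) ≤ n := by exact_mod_cast hn
  have h1 : (n : ℝ) ≤ ((n : ℝ) ^ (1 - B)) ^ 2 := by
    rw [← Real.rpow_natCast, ← Real.rpow_mul (by linarith)]
    calc (n : ℝ) = (n : ℝ) ^ (1 : ℝ) := (Real.rpow_one _).symm
      _ ≤ _ := Real.rpow_le_rpow_of_exponent_le hn1 (by push_cast; linarith)
  have h2 : ((n : ℝ) ^ (1 - B)) ^ 2 ≤ (Z : ℝ) ^ 2 :=
    pow_le_pow_left₀ (Real.rpow_nonneg (by linarith) _) h 2
  exact_mod_cast h1.trans h2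

/-- The input at all large sizes. -/
theorem gin_all {K0 : ℝ} (hK0 : 1600 ≤ K0) (hop : OPS K0) (hlk : LKB K0) :
    ∃ c0 : ℝ, 0 < c0 ∧ ∃ n1 : ℕ, ∀ n : ℕ, n1 ≤ n →
      ∃ (M : ℕ) (L : ℕ → ℤ → ℝ) (c B b : ℝ), c0 ≤ b ∧ GIn n M L c B b := by
  obtain ⟨Cr, hCr, hF⟩ := F_all K0 (by linarith)
  obtain ⟨cop, hcop, n2, hop⟩ := hop Cr hCr
  obtain ⟨cM, hcM, n3, hF⟩ := hF (1 / 10 ^ 4) (min cop 1) (by norm_num) (lt_min hcop one_pos)
  obtain ⟨c0, hc0⟩ : ∃ c0 : ℝ, c0 = cM / (10 ^ 4 * Cr) := ⟨_, rfl⟩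
  have hc0p : 0 < c0 := by rw [hc0]; positivity
  obtain ⟨n4, hlk⟩ := hlk Cr c0 hCr hc0p
  refine ⟨c0, hc0p, max (max n2 n3) (max n4 3), fun n hn => ?_⟩
  have hn2 : n2 ≤ n := le_trans (le_trans (le_max_left _ _) (le_max_left _ _)) hn
  have hn3 : n3 ≤ n := le_trans (le_trans (le_max_right _ _) (le_max_left _ _)) hn
  have hn4 : n4 ≤ n := le_trans (le_trans (le_max_left _ _) (le_max_right _ _)) hn
  have hn5 : 3 ≤ n := le_trans (le_trans (le_max_right _ _) (le_max_right _ _)) hn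
  obtain ⟨Q, hQ1, hQ2, hreg, -, c', hc1, hc2, hMT⟩ := hF n hn3
  have hn0 : (0 : ℝ) < n := by
    have : 0 < n := by omega
    exact_mod_cast this
  have hn1 : (1 : ℝ) ≤ n := by
    have : 1 ≤ n := by omega
    exact_mod_cast this
  have hlogn : 0 < Real.log n := Real.log_pos (by
    have : 1 < n := by omega
    exact_mod_cast this)
  have hlogQ : 0 < Real.log Q := by
    by_contra hcon
    push Not at hcon
    have := mul_nonpos_of_nonneg_of_nonpos (by linarith : 0 ≤ Cr) hcon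
    linarith
  have hQpos : (0 : ℝ) < Q := by
    rcases Nat.eq_zero_or_pos Q with h | h
    · rw [h, Nat.cast_zero, Real.log_zero] at hlogQ; exact absurd hlogQ (lt_irrefl _)
    · exact_mod_cast h
  have hQ1' : 1 ≤ Q := by exact_mod_cast hQpos
  have hreg' : ∀ Y : ℕ, n ≤ Y ^ 2 → Y ≤ n ^ 2 → RegP K0 Q Y := fun Y h1 h2 => (hreg Y h1 h2).1
  obtain ⟨κ, hκ⟩ : ∃ κ : ℝ, κ = Real.log Q / Real.log n := ⟨_, rfl⟩
  have hκ0 : 0 < κ := by rw [hκ]; positivity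
  have hκ1 : κ ≤ 1 / 1600 := by
    rw [hκ, div_le_div_iff₀ hlogn (by norm_num)]
    have : 1600 * Real.log Q ≤ K0 * Real.log Q := mul_le_mul_of_nonneg_right hK0 hlogQ.le
    linarith
  have hκ2 : 1 / Cr ≤ κ := by
    rw [hκ, div_le_div_iff₀ (by linarith) hlogn]
    linarith
  have hκQ : κ * Real.log n = Real.log Q := by rw [hκ]; field_simp
  have hc'0 : 0 < c' := lt_of_lt_of_le hcM hc1
  have hpow : ∀ e : ℝ, (Q : ℝ) ^ (-e) = (n : ℝ) ^ (-(e * κ)) := by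
    intro e
    rw [Real.rpow_def_of_pos hQpos, Real.rpow_def_of_pos hn0, ← hκQ]
    congr 1
    ring
  obtain ⟨c, hc⟩ : ∃ c : ℝ, c = c' * κ := ⟨_, rfl⟩
  have hcpos : 0 < c := by rw [hc]; positivity
  have hcle : c ≤ c' := by
    rw [hc]
    calc c' * κ ≤ c' * 1 := mul_le_mul_of_nonneg_left (by linarith) hc'0.le
      _ = c' := mul_one _
  have hccop : c ≤ cop := hcle.trans (hc2.trans (min_le_left _ _))
  have hc1' : c ≤ 1 := hcle.trans (hc2.trans (min_le_right _ _))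
  have hbc : c0 ≤ c / 10 ^ 4 := by
    rw [hc0, hc]
    have h1 : cM * (1 / Cr) ≤ c' * κ := mul_le_mul hc1 hκ2 (by positivity) hc'0.le
    have h2 : cM / (10 ^ 4 * Cr) = cM * (1 / Cr) / 10 ^ 4 := by field_simp
    rw [h2]
    exact div_le_div_of_nonneg_right h1 (by norm_num)
  have hb' : ∀ x : ℝ, x * (Q : ℝ) ^ (-(1 / 10 ^ 4 * c')) = x * (n : ℝ) ^ (-(c / 10 ^ 4)) := by
    intro x
    rw [hpow, hc]
    congr 3
    ring
  have hB2 : c / 100 ≤ 1 / 2 := by linarith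
  have hdiv : ∀ {k : ℕ}, Q ^ 800 ∣ k → Q ^ 40 ∣ k := fun h => (pow_dvd_pow Q (by norm_num)).trans h
  have hX : ∀ X Z : ℕ, Sc n (Q ^ 800) (c / 100) X Z → n ≤ Z ^ 2 ∧ n ≤ X ^ 2 := by
    intro X Z hs
    have h1 := sq_of_lo (by omega) hB2 hs.lo
    refine ⟨h1, h1.trans (Nat.pow_le_pow_left ?_ 2)⟩
    have := hs.le
    omega
  refine ⟨Q ^ 800, fun X m => Lk Q (X / Q ^ 2) m, c, c / 100, c / 10 ^ 4, hbc, ?_⟩
  refine ⟨by positivity, by linarith, by linarith, hc1', Nat.one_le_pow _ _ hQ1', ?_, ?_, ?_, ?_, ?_⟩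
  · -- `Mn`
    rw [← Real.log_le_log_iff (by push_cast; positivity) (Real.rpow_pos_of_pos hn0 _),
      Real.log_rpow hn0]
    push_cast
    rw [Real.log_pow, ← hκQ]
    have : κ * Real.log n ≤ 1 / 1600 * Real.log n := mul_le_mul_of_nonneg_right hκ1 hlogn.le
    push_cast
    linarith
  · -- `bd`
    intro X Z hs m h1 h2
    refine (hlk n Q hn4 hQ1 hQ2 hreg' X (hX X Z hs).2 hs.hi m h1 h2).trans ?_
    exact Real.rpow_le_rpow_of_exponent_le hn1 hbc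
  · -- `op`
    intro X Z hs f g hf hg
    refine (hop n Q hn2 hQ1 hQ2 hreg' X Z (hX X Z hs).1 hs.le hs.hi f g hf hg).trans ?_
    exact Real.rpow_le_rpow_of_exponent_le hn1 (by linarith)
  · -- `m4`
    intro X X' Z hs hs'
    obtain ⟨Bad, -, hBad, hlow⟩ := hMT.m4 Z X X' (hdiv hs.dZ) (hdiv hs.dX) (hdiv hs'.dX)
      (hX X Z hs).1 hs.le hs'.le hs.hi hs'.hi
    have h1 : ((Ico (2 * X) (3 * X) ×ˢ Ico (2 * X') (3 * X')).filter fun p => ST p.1 p.2 ∧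
      ∑ y ∈ Ico Z (2 * Z), km (fun m => Lk Q (X / Q ^ 2) m) p.1 y *
        km (fun m => Lk Q (X' / Q ^ 2) m) p.2 y < Z * (n : ℝ) ^ (-(c / 10 ^ 4))) ⊆ Bad := by
      rintro ⟨x, x'⟩ hp
      rw [mem_filter, mem_product] at hp
      obtain ⟨⟨hx, hx'⟩, hST, hlt⟩ := hp
      by_contra hnb
      have h2 := hlow x hx x' hx' hnb hST.1 hST.2
      rw [hb'] at h2
      exact absurd hlt (not_lt.2 h2)
    refine (Nat.cast_le.2 (card_le_card h1)).trans (hBad.trans ?_)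
    rw [hpow]
    have h3 : (X : ℝ) ≤ n := by exact_mod_cast hs.hi
    have h4 : (X' : ℝ) ≤ n := by exact_mod_cast hs'.hi
    have h5 : (n : ℝ) ^ (2 - c) = n * n * (n : ℝ) ^ (-(c' * κ)) := by
      rw [← hc]
      calc (n : ℝ) ^ (2 - c) = (n : ℝ) ^ ((1 : ℝ) + 1 + (-c)) := by congr 1; ring
        _ = _ := by rw [Real.rpow_add hn0, Real.rpow_add hn0, Real.rpow_one]
    rw [h5]
    exact mul_le_mul_of_nonneg_right (mul_le_mul h3 h4 (Nat.cast_nonneg _) hn0.le)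
      (Real.rpow_nonneg hn0.le _)
  · -- `m3`
    intro X Z hs
    obtain ⟨Bad, -, hBad, hlow⟩ := hMT.m3 Z X hs.dZ (hdiv hs.dX) (hX X Z hs).1 hs.le hs.hi
    have h1 : ((Ico (2 * X) (3 * X)).filter fun x => 3 ∣ x ∧
      ∑ y ∈ Ico Z (2 * Z), km (fun m => Lk Q (X / Q ^ 2) m) x y * lp (2 * (y : ℤ) - 3) <
        Z * (n : ℝ) ^ (-(c / 10 ^ 4))) ⊆ Bad := by
      intro x hp
      rw [mem_filter] at hp
      obtain ⟨hx, h3, hlt⟩ := hp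
      by_contra hnb
      have h2 := hlow x hx hnb h3
      rw [hb'] at h2
      exact absurd hlt (not_lt.2 h2)
    refine (Nat.cast_le.2 (card_le_card h1)).trans (hBad.trans ?_)
    rw [hpow]
    have h3 : (X : ℝ) ≤ n := by exact_mod_cast hs.hi
    have h5 : (n : ℝ) ^ (1 - c) = n * (n : ℝ) ^ (-(c' * κ)) := by
      rw [← hc]
      calc (n : ℝ) ^ (1 - c) = (n : ℝ) ^ ((1 : ℝ) + (-c)) := by congr 1
        _ = _ := by rw [Real.rpow_add hn0, Real.rpow_one]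
    rw [h5]
    exact mul_le_mul_of_nonneg_right h3 (Real.rpow_nonneg hn0.le _)

end Pool.Agent.Lib.H96G
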