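import Pool.Agent.Lib.H96G.C0

/-!
# Project H96G, chunk C1 (M): generic vertices of the same type
-/

open Finset

namespace Pool.Agent.Lib.H96G

open Pool.Agent.Lib.GoldbachGraph (hadj)

theorem c1_far {Z x w : ℕ} {I : Finset ℕ} (hw : w ∈ I) (hST : ST x w) (h : w ∉ far Z x I) :
    ∃ y ∈ Ico Z (2 * Z), hadj x y ∧ hadj w y := by
  by_contra hcon
  refine h ?_
  unfold far
  simp only [mem_filter]
  exact ⟨hw, hST, hcon⟩

theorem c1_many (n Z u : ℕ) (hn : 100 ≤ n) (hZ : 100 * Z ≤ n) :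
    ∃ W : Finset ℕ, W ⊆ Icc (4 * Z) n ∧ (∀ w ∈ W, ST u w) ∧ n < 10 * W.card := by
  refine ⟨(range ((n - 4 * Z) / 6)).image fun j => 4 * Z + (u + 20 * Z) % 6 + 6 * j, ?_, ?_, ?_⟩
  · intro w hw
    rw [mem_image] at hw
    obtain ⟨j, hj, rfl⟩ := hw
    rw [mem_range] at hj
    rw [mem_Icc]
    omega
  · intro w hw
    rw [mem_image] at hw
    obtain ⟨j, hj, rfl⟩ := hw
    unfold ST
    omega
  · rw [card_image_of_injective, card_range]
    · omega
    · intro i j hij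
      simp only at hij
      omega

/-- **C1.** Proof. The integers `w ∈ Icc (4Z) n` with `w ≡ u` modulo `6` have the type of `u`; there are at least
`(n + 1 - 4Z)/6 - 1 ≥ 0.15 n > 2 s` of them. So one of them is neither in `far Z u (Icc (4Z) n)` nor in
`far Z v (Icc (4Z) n)` (at most `s` elements each, field `be`; `ST v w` as `ST u v`): it has a common neighbour `y` with
`u` and one with `v`, both in `[Z, 2Z)`. `c0_two` twice, `c0_tri` (`c0_mem` for the ranges). -/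
theorem C1 {lo n Z : ℕ} (hlo : lo ≤ 1) {s t : ℝ} {Γ : Finset ℕ}
    (hP : PZ n Z s t Γ) (hn : 100 ≤ n) (hZ : 100 * Z ≤ n) (hs : 20 * s ≤ n) {u v : ℕ} (hu : u ∈ Γ) (hv : v ∈ Γ) (h : ST u v) :
    (HL lo n).edist u v ≤ 4 := by
  obtain ⟨W, hW1, hW2, hW3⟩ := c1_many n Z u hn hZ
  have hfu := hP.be u hu
  have hfv := hP.be v hv
  have hlt : (far Z u (Icc (4 * Z) n) ∪ far Z v (Icc (4 * Z) n)).card < W.card := by
    have h1 := card_union_le (far Z u (Icc (4 * Z) n)) (far Z v (Icc (4 * Z) n))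
    have h2 : ((far Z u (Icc (4 * Z) n) ∪ far Z v (Icc (4 * Z) n)).card : ℝ) ≤
        (far Z u (Icc (4 * Z) n)).card + (far Z v (Icc (4 * Z) n)).card := by exact_mod_cast h1
    have h3 : (n : ℝ) < 10 * W.card := by exact_mod_cast hW3
    have h4 : ((far Z u (Icc (4 * Z) n) ∪ far Z v (Icc (4 * Z) n)).card : ℝ) < W.card := by linarith
    exact_mod_cast h4
  obtain ⟨w, hw, hwn⟩ := exists_mem_notMem_of_card_lt_card hlt
  rw [mem_union, not_or] at hwn
  have hwI := hW1 hw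
  have hSu := hW2 w hw
  obtain ⟨y, hy, hy1, hy2⟩ := c1_far hwI hSu hwn.1
  obtain ⟨y', hy', hy1', hy2'⟩ := c1_far hwI (c0_ST_trans (c0_ST_symm h) hSu) hwn.2
  have hm := c0_mem hlo hy hwI
  have hm' := c0_mem hlo hy' hwI
  have hmu := c0_mem hlo hy (hP.sub hu)
  have hmv := c0_mem hlo hy (hP.sub hv)
  have e1 : (HL lo n).edist u w ≤ 2 := c0_two hy1 hy2 hmu.1 hm.2 hm.1
  have e2 : (HL lo n).edist w v ≤ 2 := c0_two hy2' hy1' hm.1 hm'.2 hmv.1
  exact c0_tri (i := 2) (j := 2) (k := 4) e1 e2 (by norm_num)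

end Pool.Agent.Lib.H96G
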