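import Pool.Agent.Lib.H96G.C0

/-!
# Project H96G, chunk C2 (S/M): opposite types
-/

open Finset

namespace Pool.Agent.Lib.H96G

open Pool.Agent.Lib.GoldbachGraph (hadj hadj_comm)

theorem c2_far {Z x w : ℕ} {I : Finset ℕ} (hw : w ∈ I) (hST : ST x w) (h : w ∉ far Z x I) :
    ∃ y ∈ Ico Z (2 * Z), hadj x y ∧ hadj w y := by
  by_contra hcon
  refine h ?_
  unfold far
  simp only [mem_filter]
  exact ⟨hw, hST, hcon⟩

open Classical in
theorem c2_many {Z' v : ℕ} {s : ℝ} (hd : s + 3 < ((nb Z' v).card : ℝ)) :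
    s < ((nb Z' v).filter fun y => OT v y).card := by
  have h1 := c0_exc v (nb Z' v)
  have h2 : (nb Z' v).card ≤ ((nb Z' v).filter fun y => OT v y).card +
      ((nb Z' v).filter fun y => hadj v y ∧ ¬ OT v y).card := by
    refine (card_le_card ?_).trans (card_union_le _ _)
    intro y hy
    rw [mem_union, mem_filter, mem_filter]
    have h3 : hadj v y := by
      unfold nb at hy
      exact (mem_filter.1 hy).2
    by_cases hO : OT v y
    · exact Or.inl ⟨hy, hO⟩
    · exact Or.inr ⟨hy, h3, hO⟩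
  have h4 : (nb Z' v).card ≤ ((nb Z' v).filter fun y => OT v y).card + 3 := by omega
  have h5 : ((nb Z' v).card : ℝ) ≤ ((nb Z' v).filter fun y => OT v y).card + 3 := by exact_mod_cast h4
  linarith

/-- **C2.** Proof. Remove from `nb Z' v` the at most `3` elements which are not of opposite type to `v` (`c0_exc`):
more than `s` elements `y` remain, in `[Z', 2Z') ⊆ Icc (4Z) n`, and `ST u y` (`c0_OT_OT`, `c0_OT_symm`). By the field
`be` one of them is not in `far Z u (Icc (4Z) n)`: `y` and `u` have a common neighbour in `[Z, 2Z)`; `c0_two` and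
`c0_one`, `c0_tri`: `2 + 1`. -/
theorem C2 {lo n Z Z' : ℕ} (hlo : lo ≤ 1) {s t : ℝ} {Γ : Finset ℕ} (hP : PZ n Z s t Γ)
    (h1 : 4 * Z + 3 ≤ Z') (h2 : 2 * Z' ≤ n) {u v : ℕ} (hu : u ∈ Γ) (hv : v ∈ Icc lo n)
    (hd : s + 3 < ((nb Z' v).card : ℝ)) (h : OT u v) : (HL lo n).edist u v ≤ 3 := by
  classical
  have hfu := hP.be u hu
  have hmany := c2_many hd
  have hlt : (far Z u (Icc (4 * Z) n)).card < ((nb Z' v).filter fun y => OT v y).card := by
    have h3 : ((far Z u (Icc (4 * Z) n)).card : ℝ) < ((nb Z' v).filter fun y => OT v y).card := by linarith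
    exact_mod_cast h3
  obtain ⟨y, hy, hyn⟩ := exists_mem_notMem_of_card_lt_card hlt
  rw [mem_filter] at hy
  obtain ⟨hy1, hy2⟩ := hy
  unfold nb at hy1
  rw [mem_filter, mem_Ico] at hy1
  have hyI : y ∈ Icc (4 * Z) n := by
    rw [mem_Icc]
    omega
  obtain ⟨w, hw, hw1, hw2⟩ := c2_far hyI (c0_OT_OT h hy2) hyn
  have hmy := c0_mem hlo hw hyI
  have hmu := c0_mem hlo hw (hP.sub hu)
  have e1 : (HL lo n).edist u y ≤ 2 := c0_two hw1 hw2 hmu.1 hmy.2 hmy.1
  have e2 : (HL lo n).edist y v ≤ 1 := c0_one ((hadj_comm _ _).1 hy1.2) hmy.1 hv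
  exact c0_tri (i := 2) (j := 1) (k := 3) e1 e2 (by norm_num)

end Pool.Agent.Lib.H96G
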