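import Pool.Agent.Lib.H96G.C0

/-!
# Project H96G, chunk C3 (M): same parity, one divisible by three
-/

open Finset

namespace Pool.Agent.Lib.H96G

open Pool.Agent.Lib.GoldbachGraph (hadj)

open Classical in
/-- Many elements of `nb3 Z' u` are of opposite type to `u`. -/
theorem c3_many {Z' u : ℕ} {s : ℝ} (hd : s + 3 < ((nb3 Z' u).card : ℝ)) :
    s < (((nb3 Z' u).filter fun y => OT u y).card : ℝ) := by
  have h1 := c0_exc u (Ico Z' (2 * Z'))
  have h2 : (nb3 Z' u).filter (fun y => ¬ OT u y) ⊆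
      (Ico Z' (2 * Z')).filter fun y => hadj u y ∧ ¬ OT u y := by
    intro y hy
    rw [mem_filter] at hy
    have hy1 := hy.1
    unfold nb3 at hy1
    rw [mem_filter] at hy1
    exact mem_filter.2 ⟨hy1.1, hy1.2.1, hy.2⟩
  have h3 : ((nb3 Z' u).filter fun y => ¬ OT u y).card ≤ 3 := (card_le_card h2).trans h1
  have h4 := card_filter_add_card_filter_not (s := nb3 Z' u) (fun y => OT u y)
  have h3' : (((nb3 Z' u).filter fun y => ¬ OT u y).card : ℝ) ≤ 3 := by exact_mod_cast h3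
  have h4' : (((nb3 Z' u).filter fun y => OT u y).card : ℝ)
      + (((nb3 Z' u).filter fun y => ¬ OT u y).card : ℝ) = ((nb3 Z' u).card : ℝ) := by
    exact_mod_cast h4
  linarith

/-- **C3.** Proof. Remove from `nb3 Z' u` the at most `3` elements `y` not of opposite type to `u` (`c0_exc`); more
than `s` remain; for these `y` is not divisible by `3` and has the other parity, so `y - 3 ∈ Icc (4Z) n`
(`y ≥ Z' ≥ 4 Z + 3`) has the type of `v`. The map `y ↦ y - 3` is injective on them, so by the field `be` some `y - 3` is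
not in `far Z v (Icc (4Z) n)`: `y - 3` and `v` have a common neighbour in `[Z, 2Z)`. `u ~ y ~ y - 3` (`c0_edge`):
`1 + 1 + 2`. -/
theorem C3 {lo n Z Z' : ℕ} (hlo : lo ≤ 1) {s t : ℝ} {Γ : Finset ℕ} (hP : PZ n Z s t Γ)
    (h1 : 4 * Z + 3 ≤ Z') (h2 : 2 * Z' ≤ n) {u v : ℕ} (hu : u ∈ Icc lo n) (hv : v ∈ Γ)
    (hd : s + 3 < ((nb3 Z' u).card : ℝ)) (hp : u % 2 = v % 2) (hu3 : 3 ∣ u) (hv3 : ¬ 3 ∣ v) :
    (HL lo n).edist u v ≤ 4 := by
  classical
  have hm := c3_many hd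
  obtain ⟨S, hS⟩ : ∃ S, S = (nb3 Z' u).filter fun y => OT u y := ⟨_, rfl⟩
  rw [← hS] at hm
  have hSm : ∀ y ∈ S, (Z' ≤ y ∧ y < 2 * Z') ∧ hadj u y ∧ (2 * y - 3).Prime ∧ OT u y := by
    intro y hy
    rw [hS, mem_filter] at hy
    have hy1 := hy.1
    unfold nb3 at hy1
    rw [mem_filter, mem_Ico] at hy1
    exact ⟨hy1.1, hy1.2.1, hy1.2.2, hy.2⟩
  have hex : ∃ y ∈ S, y - 3 ∉ far Z v (Icc (4 * Z) n) := by
    by_contra hc
    push Not at hc
    have h3 : S.image (fun y => y - 3) ⊆ far Z v (Icc (4 * Z) n) := by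
      intro w hw
      obtain ⟨y, hy, rfl⟩ := mem_image.1 hw
      exact hc y hy
    have h4 := card_le_card h3
    rw [card_image_of_injOn (fun a ha b hb hab => by
      have ea := (hSm a ha).1.1
      have eb := (hSm b hb).1.1
      have hab' : a - 3 = b - 3 := hab
      omega)] at h4
    have h5 := hP.be v hv
    have h6 : (S.card : ℝ) ≤ ((far Z v (Icc (4 * Z) n)).card : ℝ) := by exact_mod_cast h4
    linarith
  obtain ⟨y, hy, hyf⟩ := hex
  obtain ⟨⟨y1, y2⟩, y3, y4, y5⟩ := hSm y hy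
  have hyI : y - 3 ∈ Icc (4 * Z) n := mem_Icc.2 ⟨by omega, by omega⟩
  have hST : ST v (y - 3) := by
    obtain ⟨o1, o2⟩ := y5
    have hy3 : ¬ 3 ∣ y := o2.1 hu3
    refine ⟨by omega, ?_⟩
    constructor
    · intro h
      exact absurd h hv3
    · intro h
      exfalso
      apply hy3
      omega
  have hcom : ∃ z ∈ Ico Z (2 * Z), hadj v z ∧ hadj (y - 3) z := by
    by_contra hc
    apply hyf
    unfold far
    simp only [mem_filter]
    exact ⟨hyI, hST, hc⟩
  obtain ⟨z, hz, hz1, hz2⟩ := hcom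
  have hvI := hP.sub hv
  have m1 := c0_mem hlo hz hyI
  have m2 := c0_mem hlo hz hvI
  have hyL : y ∈ Icc lo n := mem_Icc.2 ⟨by omega, by omega⟩
  have e1 : (HL lo n).edist u y ≤ ((1 : ℕ) : ℕ∞) := by exact_mod_cast c0_one y3 hu hyL
  have e2 : (HL lo n).edist y (y - 3) ≤ ((1 : ℕ) : ℕ∞) := by
    exact_mod_cast c0_one (c0_edge (by omega) y4) hyL m1.1
  have e3 : (HL lo n).edist (y - 3) v ≤ ((2 : ℕ) : ℕ∞) := by
    exact_mod_cast c0_two hz2 hz1 m1.1 m1.2 m2.1
  have e4 := c0_tri (k := 2) e1 e2 le_rfl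
  have e5 := c0_tri (k := 4) e4 e3 le_rfl
  exact_mod_cast e5

end Pool.Agent.Lib.H96G
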