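import Pool.Agent.Lib.H96G.A7
import Pool.Agent.Lib.H96G.B1
import Pool.Agent.Lib.H96G.C0

/-!
# Project H96G, chunk D1 (M): rich vertices of the same type
-/

open Finset

namespace Pool.Agent.Lib.H96G

open Pool.Agent.Lib.GoldbachGraph (hadj)

/-- The number of neighbours of `u` in `[4Z, n]`. -/
def rh (n Z u : ℕ) : ℕ := ((Icc (4 * Z) n).filter fun y => hadj u y).card

/-- Proof. `S` from `B1` (`8 M ≤ Z` as in `B2`). The neighbours `a ∈ Icc (4Z) n` of `u` with `OT u a` are at least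
`n^(1-3B/2) - 3` (`c0_exc`) and covered by the intervals `Ico (2X) (3X)`, `X ∈ S`, `|S| ≤ 5 log (8n)`: one of them
contains at least `(n^(1-3B/2) - 3)/(5 log (8n)) ≥ n^(1-2B)` of them (`Nm.lg`, `Nm.cst`). -/
theorem D1_pigeon {n M : ℕ} {L : ℕ → ℤ → ℝ} {c B b : ℝ} (hN : Nm n b) (h : GIn n M L c B b)
    {Z : ℕ} (hZ : M ∣ Z) (hlo : (n : ℝ) ^ (1 - B) ≤ Z) {u : ℕ}
    (hu : (n : ℝ) ^ (1 - 3 * B / 2) ≤ rh n Z u) :
    ∃ X : ℕ, Sc n M B X Z ∧ ∃ A ⊆ Ico (2 * X) (3 * X), (n : ℝ) ^ (1 - 2 * B) ≤ A.card ∧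
      ∀ a ∈ A, a ∈ Icc (4 * Z) n ∧ hadj u a ∧ OT u a := by
  have hb := h.b_pos
  have hbB := h.hb
  have hBc := h.hB
  have hc := h.hc
  have h8 : 8 * M ≤ Z := by
    have h1 : (8 : ℝ) * (n : ℝ) ^ (1 / 2 : ℝ) ≤ (n : ℝ) ^ (1 - B) := hN.cst (by norm_num) (by linarith)
    have h2 := h.Mn
    have h3 : (8 : ℝ) * M ≤ Z := by linarith
    exact_mod_cast h3
  obtain ⟨S, hS, hcard, hcov⟩ := B1 n M Z h.M1 hZ h8
  classical
  set N : Finset ℕ := (Icc (4 * Z) n).filter fun y => hadj u y ∧ OT u y with hNdef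
  have hone : (1 : ℝ) ≤ (n : ℝ) ^ (1 - 2 * B) := by
    have := hN.mono (x := 0) (y := 1 - 2 * B) (by linarith)
    rwa [Real.rpow_zero] at this
  have hNcard : (n : ℝ) ^ (1 - 3 * B / 2) - 3 ≤ N.card := by
    have h1 : (Icc (4 * Z) n).filter (fun y => hadj u y) ⊆ N ∪ (Icc (4 * Z) n).filter (fun y => hadj u y ∧ ¬ OT u y) := by
      intro y hy
      rw [mem_filter] at hy
      by_cases h2 : OT u y
      · exact mem_union_left _ (mem_filter.2 ⟨hy.1, hy.2, h2⟩)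
      · exact mem_union_right _ (mem_filter.2 ⟨hy.1, hy.2, h2⟩)
    have h2 : ((Icc (4 * Z) n).filter fun y => hadj u y ∧ ¬ OT u y).card ≤ 3 := by
      have h3 := c0_exc u (Icc (4 * Z) n)
      refine le_trans (le_of_eq ?_) h3
      congr 1
    have h3 := (card_le_card h1).trans (card_union_le _ _)
    have h4 : rh n Z u ≤ N.card + 3 := by
      unfold rh
      omega
    have h5 : (rh n Z u : ℝ) ≤ N.card + 3 := by exact_mod_cast h4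
    linarith
  by_contra hcon
  push Not at hcon
  have hsmall : ∀ X ∈ S, ((N.filter fun y => y ∈ Ico (2 * X) (3 * X)).card : ℝ) ≤ (n : ℝ) ^ (1 - 2 * B) := by
    intro X hX
    by_contra h0
    push Not at h0
    obtain ⟨h1, h2, h3⟩ := hS X hX
    obtain ⟨a, ha, hna⟩ := hcon X ⟨h1, hZ, hlo, h2, h3⟩ (N.filter fun y => y ∈ Ico (2 * X) (3 * X))
      (fun y hy => (mem_filter.1 hy).2) h0.le
    have h4 := mem_filter.1 (mem_filter.1 ha).1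
    exact hna h4.1 h4.2.1 h4.2.2
  have hsub : N ⊆ S.biUnion fun X => N.filter fun y => y ∈ Ico (2 * X) (3 * X) := by
    intro y hy
    have h1 := mem_Icc.1 (mem_filter.1 hy).1
    obtain ⟨X, hX, hyX⟩ := hcov y h1.1 h1.2
    exact mem_biUnion.2 ⟨X, hX, mem_filter.2 ⟨hy, hyX⟩⟩
  have h1 : (N.card : ℝ) ≤ ∑ X ∈ S, ((N.filter fun y => y ∈ Ico (2 * X) (3 * X)).card : ℝ) := by
    have := (card_le_card hsub).trans card_biUnion_le
    exact_mod_cast this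
  have h2 : ∑ X ∈ S, ((N.filter fun y => y ∈ Ico (2 * X) (3 * X)).card : ℝ) ≤ S.card * (n : ℝ) ^ (1 - 2 * B) := by
    refine (sum_le_sum hsmall).trans ?_
    rw [sum_const, nsmul_eq_mul]
  have h3 : (S.card : ℝ) * (n : ℝ) ^ (1 - 2 * B) ≤ 5 * Real.log (8 * n) * (n : ℝ) ^ (1 - 2 * B) :=
    mul_le_mul_of_nonneg_right hcard (by linarith)
  have h4 : (9 : ℝ) * (Real.log (8 * n)) ^ 1 * (n : ℝ) ^ (1 - 2 * B) ≤ (n : ℝ) ^ (1 - 3 * B / 2) :=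
    hN.lg (by norm_num) (by norm_num) (by linarith)
  rw [pow_one] at h4
  have h5 : (1 : ℝ) ≤ Real.log (8 * n) * (n : ℝ) ^ (1 - 2 * B) := one_le_mul_of_one_le_of_one_le hN.ell hone
  linarith

/-- Composition of types. -/
theorem d1_type {a u v a' : ℕ} (h1 : OT u a) (h2 : ST u v) (h3 : OT v a') : ST a a' := by
  unfold OT at h1 h3
  unfold ST at h2 ⊢
  refine ⟨by omega, ?_⟩
  obtain ⟨-, h1⟩ := h1
  obtain ⟨-, h2⟩ := h2
  obtain ⟨-, h3⟩ := h3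
  tauto

/-- **D1.** Proof. `D1_pigeon` for `u` and `v`; all pairs in `A × A'` have the same type (`c0_OT_OT` etc.: `OT u a`,
`ST u v`, `OT v a'`). `A7` gives `a`, `a'` with a common neighbour `y ∈ [Z, 2Z)`: `u ~ a ~ y ~ a' ~ v`. -/
theorem D1 {lo n M : ℕ} (hlo1 : lo ≤ 1) {L : ℕ → ℤ → ℝ} {c B b : ℝ} (hN : Nm n b) (h : GIn n M L c B b)
    {Z : ℕ} (hZ : M ∣ Z) (hlo : (n : ℝ) ^ (1 - B) ≤ Z) {u v : ℕ} (hu1 : u ∈ Icc lo n)
    (hv1 : v ∈ Icc lo n) (hu : (n : ℝ) ^ (1 - 3 * B / 2) ≤ rh n Z u)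
    (hv : (n : ℝ) ^ (1 - 3 * B / 2) ≤ rh n Z v) (hST : ST u v) : (HL lo n).edist u v ≤ 4 := by
  obtain ⟨X, hX, A, hA, hAc, hAp⟩ := D1_pigeon hN h hZ hlo hu
  obtain ⟨X', hX', A', hA', hAc', hAp'⟩ := D1_pigeon hN h hZ hlo hv
  obtain ⟨a, ha, a', ha', y, hy, h1, h2⟩ := A7 hN h hX hX' hA hA'
    (fun a ha a' ha' => d1_type (hAp a ha).2.2 hST (hAp' a' ha').2.2) hAc hAc'
  obtain ⟨ha1, ha2, -⟩ := hAp a ha
  obtain ⟨ha1', ha2', -⟩ := hAp' a' ha'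
  obtain ⟨ha3, hy3⟩ := c0_mem hlo1 hy ha1
  obtain ⟨ha3', -⟩ := c0_mem hlo1 hy ha1'
  have h3 : (HL lo n).edist u y ≤ 2 :=
    c0_two ha2 ((GoldbachGraph.hadj_comm _ _).1 h1) hu1 ha3 hy3
  have h4 : (HL lo n).edist y v ≤ 2 :=
    c0_two ((GoldbachGraph.hadj_comm _ _).1 h2) ha2' hy3 ha3' hv1
  exact c0_tri h3 h4 (by norm_num)

end Pool.Agent.Lib.H96G
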