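import Pool.Agent.Lib.H96G.C6
import Pool.Agent.Lib.H96G.D1

/-!
# Project H96G, chunk E0 (M): rich vertices
-/

open Finset

namespace Pool.Agent.Lib.H96G

open Pool.Agent.Lib.GoldbachGraph (hadj hdeg hadj_comm)


/-- The vertices outside of `Γ0 ∩ Γ1 ∩ Γ2`. Proof. Such a `u ∈ Icc 1 n` is `< 4 Z2`, or in one of the sets
`Icc (4 Z_i) n \ Γ_i` (fields `co`; `Z0 ≤ Z1 ≤ Z2`). -/
theorem E0_co {n Z0 Z1 Z2 : ℕ} {s t : ℝ} {Γ0 Γ1 Γ2 : Finset ℕ} (h : Tri n Z0 Z1 Z2 s t Γ0 Γ1 Γ2) :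
    ((Icc 1 n \ (Γ0 ∩ Γ1 ∩ Γ2)).card : ℝ) ≤ 4 * Z2 + 3 * s := by
  have hsub : Icc 1 n \ (Γ0 ∩ Γ1 ∩ Γ2) ⊆ range (4 * Z2) ∪ ((Icc (4 * Z0) n \ Γ0) ∪
      ((Icc (4 * Z1) n \ Γ1) ∪ (Icc (4 * Z2) n \ Γ2))) := by
    intro u hu
    rw [mem_sdiff, mem_Icc, mem_inter, mem_inter] at hu
    obtain ⟨⟨h1, h2⟩, h3⟩ := hu
    have h01 := h.h01
    have h12 := h.h12
    simp only [mem_union, mem_range, mem_sdiff, mem_Icc]
    by_cases h4 : u < 4 * Z2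
    · exact Or.inl h4
    · right
      by_cases h5 : u ∈ Γ0
      · by_cases h6 : u ∈ Γ1
        · refine Or.inr (Or.inr ⟨by omega, fun h7 => h3 ⟨⟨h5, h6⟩, h7⟩⟩)
        · exact Or.inr (Or.inl ⟨by omega, h6⟩)
      · exact Or.inl ⟨by omega, h5⟩
  have h1 := card_le_card hsub
  have h2 := card_union_le (range (4 * Z2)) ((Icc (4 * Z0) n \ Γ0) ∪ ((Icc (4 * Z1) n \ Γ1) ∪ (Icc (4 * Z2) n \ Γ2)))
  have h3 := card_union_le (Icc (4 * Z0) n \ Γ0) ((Icc (4 * Z1) n \ Γ1) ∪ (Icc (4 * Z2) n \ Γ2))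
  have h4 := card_union_le (Icc (4 * Z1) n \ Γ1) (Icc (4 * Z2) n \ Γ2)
  rw [card_range] at h2
  have h5 : (Icc 1 n \ (Γ0 ∩ Γ1 ∩ Γ2)).card ≤ 4 * Z2 + ((Icc (4 * Z0) n \ Γ0).card + ((Icc (4 * Z1) n \ Γ1).card +
      (Icc (4 * Z2) n \ Γ2).card)) := by omega
  have h6 : ((Icc 1 n \ (Γ0 ∩ Γ1 ∩ Γ2)).card : ℝ) ≤ 4 * Z2 + (((Icc (4 * Z0) n \ Γ0).card : ℝ) + (((Icc (4 * Z1) n \ Γ1).card : ℝ) +
      ((Icc (4 * Z2) n \ Γ2).card : ℝ))) := by exact_mod_cast h5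
  linarith [h.P0.co, h.P1.co, h.P2.co]

/-- Proof. `hdeg n u > 4 Z2 + 3 s + 3`: remove from the neighbours of `u` in `Icc 1 n` those outside of
`Γ0 ∩ Γ1 ∩ Γ2` (`E0_co`) and the at most `3` which are not of opposite type (`c0_exc`). -/
theorem E0_step {n Z0 Z1 Z2 : ℕ} {s t : ℝ} {Γ0 Γ1 Γ2 : Finset ℕ} (h : Tri n Z0 Z1 Z2 s t Γ0 Γ1 Γ2)
    {u : ℕ} (hu : 4 * (Z2 : ℝ) + 3 * s + 3 < hdeg n u) :
    ∃ u' ∈ Γ0 ∩ Γ1 ∩ Γ2, hadj u u' ∧ OT u u' := by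
  classical
  by_contra hcon
  push Not at hcon
  have hsub : ((Icc 1 n).filter fun y => hadj u y) ⊆ (Icc 1 n \ (Γ0 ∩ Γ1 ∩ Γ2)) ∪
      ((Icc 1 n).filter fun y => hadj u y ∧ ¬ OT u y) := by
    intro y hy
    rw [mem_filter] at hy
    rw [mem_union, mem_sdiff, mem_filter]
    by_cases h1 : y ∈ Γ0 ∩ Γ1 ∩ Γ2
    · exact Or.inr ⟨hy.1, hy.2, hcon y h1 hy.2⟩
    · exact Or.inl ⟨hy.1, h1⟩
  have h1 := (card_le_card hsub).trans (card_union_le _ _)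
  have h2 := c0_exc u (Icc 1 n)
  have h3 : hdeg n u ≤ (Icc 1 n \ (Γ0 ∩ Γ1 ∩ Γ2)).card + 3 := by
    unfold hdeg
    omega
  have h4 : (hdeg n u : ℝ) ≤ ((Icc 1 n \ (Γ0 ∩ Γ1 ∩ Γ2)).card : ℝ) + 3 := by exact_mod_cast h3
  linarith [E0_co h]

/-- Proof. At most `4 Z` neighbours are in `Icc 1 (4Z - 1)`. -/
theorem E0_rh (n Z u : ℕ) : (hdeg n u : ℝ) - 4 * Z ≤ rh n Z u := by
  have hsub : ((Icc 1 n).filter fun y => hadj u y) ⊆ range (4 * Z) ∪ ((Icc (4 * Z) n).filter fun y => hadj u y) := by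
    intro y hy
    rw [mem_filter, mem_Icc] at hy
    rw [mem_union, mem_range, mem_filter, mem_Icc]
    by_cases h1 : y < 4 * Z
    · exact Or.inl h1
    · exact Or.inr ⟨⟨by omega, hy.1.2⟩, hy.2⟩
  have h1 := (card_le_card hsub).trans (card_union_le _ _)
  rw [card_range] at h1
  have h2 : hdeg n u ≤ 4 * Z + rh n Z u := h1
  have h3 : (hdeg n u : ℝ) ≤ 4 * Z + rh n Z u := by exact_mod_cast h2
  linarith

/-- **E0.** Proof. `u' ∈ Γ0 ∩ Γ1 ∩ Γ2` has `rh n Z0 u' ≥ (nb Z2 u').card ≥ t ≥ t'` (`[Z2, 2 Z2) ⊆ Icc (4 Z0) n`, field `al`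
of `P2`); `u`, `v` have `rh ≥ hdeg - 4 Z0 ≥ t'` (`E0_rh`). `ST u v`: `hsame`. `OT u v`: `u ~ u'` (`E0_step`), `ST u' v`,
`hsame`: `1 + 4`. Same parity: `u ~ u'`, `v ~ v'`, `u'`, `v'` have the same parity, `C6`: `1 + 4 + 1`. General case:
`1 + 5 + 1`. (`Γ0 ∩ Γ1 ∩ Γ2 ⊆ Icc lo n` as `lo ≤ 1`, `Z0 ≥ 1` because `nb Z0 u'` is not empty: `t > s + 3 ≥ 3`.) -/
theorem E0 {lo n Z0 Z1 Z2 : ℕ} (hlo : lo ≤ 1) {s t : ℝ} {Γ0 Γ1 Γ2 : Finset ℕ}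
    (h : Tri n Z0 Z1 Z2 s t Γ0 Γ1 Γ2) {t' r : ℝ}
    (hsame : ∀ u ∈ Icc lo n, ∀ v ∈ Icc lo n, ST u v → t' ≤ rh n Z0 u → t' ≤ rh n Z0 v →
      (HL lo n).edist u v ≤ 4) (htt : t' ≤ t) (hr : 4 * (Z2 : ℝ) + 3 * s + 3 < r)
    (hr' : t' + 4 * Z0 ≤ r) {u v : ℕ} (hu : u ∈ Icc lo n) (hv : v ∈ Icc lo n)
    (hdu : r ≤ hdeg n u) (hdv : r ≤ hdeg n v) :
    (HL lo n).edist u v ≤ 7 ∧ (u % 2 = v % 2 → (HL lo n).edist u v ≤ 6) ∧
      (OT u v → (HL lo n).edist u v ≤ 5) ∧ (ST u v → (HL lo n).edist u v ≤ 4) := by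
  have hs0 : 0 ≤ s := le_trans (Nat.cast_nonneg _) h.P0.co
  have hst := h.hst
  have h01 := h.h01
  have h12 := h.h12
  have h2 := h.h2
  have hrich : ∀ w : ℕ, r ≤ hdeg n w → t' ≤ rh n Z0 w := by
    intro w hw
    have := E0_rh n Z0 w
    linarith
  have hgen : ∀ w ∈ Γ0 ∩ Γ1 ∩ Γ2, w ∈ Icc lo n ∧ t' ≤ rh n Z0 w := by
    intro w hw
    rw [mem_inter, mem_inter] at hw
    obtain ⟨⟨hw0, hw1⟩, hw2⟩ := hw
    constructor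
    · have h3 := h.P0.al w hw0
      have h4 : (0 : ℝ) < (nb Z0 w).card := by linarith
      have h5 : 0 < (nb Z0 w).card := by exact_mod_cast h4
      obtain ⟨y, hy⟩ := card_pos.1 h5
      unfold nb at hy
      rw [mem_filter] at hy
      exact (c0_mem hlo hy.1 (h.P0.sub hw0)).1
    · have h3 := h.P2.al w hw2
      have h4 : (nb Z2 w).card ≤ rh n Z0 w := by
        unfold nb rh
        apply card_le_card
        intro y hy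
        rw [mem_filter, mem_Ico] at hy
        rw [mem_filter, mem_Icc]
        exact ⟨by omega, hy.2⟩
      have h5 : ((nb Z2 w).card : ℝ) ≤ rh n Z0 w := by exact_mod_cast h4
      linarith
  obtain ⟨u', hu', hau, hOu⟩ := E0_step h (u := u) (by linarith)
  obtain ⟨v', hv', hav, hOv⟩ := E0_step h (u := v) (by linarith)
  have hgu := hgen u' hu'
  have hgv := hgen v' hv'
  rw [mem_inter, mem_inter] at hu' hv'
  have hC := C6 hlo h hu'.1.1 hu'.1.2 hu'.2 hv'.1.1 hv'.1.2 hv'.2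
  have e1 : (HL lo n).edist u u' ≤ 1 := c0_one hau hu hgu.1
  have e2 : (HL lo n).edist v' v ≤ 1 := c0_one ((hadj_comm _ _).1 hav) hgv.1 hv
  refine ⟨?_, ?_, ?_, ?_⟩
  · have e3 : (HL lo n).edist u v' ≤ 6 := c0_tri (i := 1) (j := 5) (k := 6) e1 hC.1 (by norm_num)
    exact c0_tri (i := 6) (j := 1) (k := 7) e3 e2 (by norm_num)
  · intro hpar
    have hpar' : u' % 2 = v' % 2 := by
      have h5 := hOu.1
      have h6 := hOv.1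
      omega
    have e3 : (HL lo n).edist u v' ≤ 5 := c0_tri (i := 1) (j := 4) (k := 5) e1 (hC.2.1 hpar') (by norm_num)
    exact c0_tri (i := 5) (j := 1) (k := 6) e3 e2 (by norm_num)
  · intro hO
    have hS : ST u' v := c0_OT_OT (c0_OT_symm hOu) hO
    have e3 := hsame u' hgu.1 v hv hS hgu.2 (hrich v hdv)
    exact c0_tri (i := 1) (j := 4) (k := 5) e1 e3 (by norm_num)
  · intro hS
    exact hsame u hu v hv hS (hrich u hdu) (hrich v hdv)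

end Pool.Agent.Lib.H96G
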