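import Pool.Agent.Lib.H96G.D2
import Pool.Agent.Lib.H96G.E0

/-!
# Project H96G, chunk E1 (M): conclusion in the halved graph
-/

open Finset

namespace Pool.Agent.Lib.H96G

open Pool.Agent.Lib.GoldbachGraph (hadj hdeg)


/-- The conclusion in the halved graph: exceptional set `n^(1-B/10)`, degrees of the generic vertices at least
`n^(1-17B/100)`, rich vertices have degree at least `n^(1-B/5)`. -/
def GOut (lo n : ℕ) (B : ℝ) : Prop :=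
  (∃ Γ : Finset ℕ, Γ ⊆ Icc 1 n ∧ (n : ℝ) - (n : ℝ) ^ (1 - B / 10) ≤ Γ.card ∧
    (∀ u ∈ Γ, (n : ℝ) ^ (1 - 17 * B / 100) ≤ hdeg n u) ∧
    ∀ u ∈ Γ, ∀ v ∈ Γ, (HL lo n).edist u v ≤ 5 ∧ (u % 2 = v % 2 → (HL lo n).edist u v ≤ 4) ∧
      (OT u v → (HL lo n).edist u v ≤ 3)) ∧
  ∀ u ∈ Icc lo n, ∀ v ∈ Icc lo n, (n : ℝ) ^ (1 - B / 5) ≤ hdeg n u →
    (n : ℝ) ^ (1 - B / 5) ≤ hdeg n v →
    (HL lo n).edist u v ≤ 7 ∧ (u % 2 = v % 2 → (HL lo n).edist u v ≤ 6) ∧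
      (OT u v → (HL lo n).edist u v ≤ 5) ∧ (ST u v → (HL lo n).edist u v ≤ 4)

/-- **E1.** Proof. `D2`; `Z3` from `D2_Z` with `e = B/8`, `Γ3` from `B2` (`n^(1-B) ≤ n^(1-B/8)`);
`Γ = Γ0 ∩ Γ1 ∩ Γ2 ∩ Γ3`. Complement: `E0_co` and the one of `Γ3` (`4 Z3 + s`):
`4 Z2 + 4 s + 4 Z3 ≤ 512 n^(1-B) + 4 n^(1-c/2+3B) + 8 n^(1-B/8) ≤ n^(1-B/10)`. Degrees: for `u ∈ Γ3` the elements of
`nb Z3 u` are neighbours in `Icc 1 n` (`Z3 ≥ 1`, `4 Z3 ≤ u ≤ n`): `hdeg n u ≥ Z3 n^(-4b) ≥ n^(1-B/8-4b) ≥ n^(1-17B/100)`.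
Distances in `Γ`: `C6`. Rich vertices: `E0` with `t' = n^(1-3B/2)`, `r = n^(1-B/5)`, `hsame` = `D1` for `Z0`;
`htt`: `1 - 3B/2 ≤ 1 - B - 4b`; `hr`: `512 n^(1-B) + 3 n^(1-c/2+3B) + 3 < n^(1-B/5)`; `hr'`:
`n^(1-3B/2) + 8 n^(1-B) ≤ n^(1-B/5)` (`Nm.cst`; `b/2 ≤ B/200`). -/
theorem E1 {lo n M : ℕ} (hlo : lo ≤ 1) {L : ℕ → ℤ → ℝ} {c B b : ℝ} (hN : Nm n b)
    (h : GIn n M L c B b) : GOut lo n B := by
  have hb := h.b_pos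
  have hbB := h.hb
  have hBc := h.hB
  have hc := h.hc
  obtain ⟨Z0, Z1, Z2, Γ0, Γ1, Γ2, hM0, hlo0, hhi0, hZ2, hT⟩ := D2 hN h
  obtain ⟨Z3, hM3, hlo3, hhi3⟩ := D2_Z hN h (B / 8) (by linarith)
  have hm3 : (n : ℝ) ^ (1 - B) ≤ (n : ℝ) ^ (1 - B / 8) := hN.mono (by linarith)
  obtain ⟨Γ3, hΓ3⟩ := B2 hN h hM3 (hm3.trans hlo3)
  have hp1 := hN.ppos (1 - B)
  have hZ3 : 1 ≤ Z3 := by
    by_contra h0
    have h1 : Z3 = 0 := by omega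
    rw [h1] at hlo3
    push_cast at hlo3
    linarith
  have hs1 : (n : ℝ) ^ (1 - c / 2 + 3 * B) ≤ (n : ℝ) ^ (1 - B) := hN.mono (by linarith)
  have hZ2R : (Z2 : ℝ) = 64 * Z0 := by rw [hZ2]; push_cast; ring
  have hone : (1 : ℝ) ≤ (n : ℝ) ^ (1 - B) := by
    have := hN.mono (x := 0) (y := 1 - B) (by linarith)
    rwa [Real.rpow_zero] at this
  refine ⟨⟨Γ0 ∩ Γ1 ∩ Γ2 ∩ Γ3, ?_, ?_, ?_, ?_⟩, ?_⟩
  · intro u hu
    have h1 := hΓ3.sub (mem_inter.1 hu).2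
    rw [mem_Icc] at h1 ⊢
    omega
  · have h1 : Icc 1 n ⊆ (Γ0 ∩ Γ1 ∩ Γ2 ∩ Γ3) ∪ ((Icc 1 n \ (Γ0 ∩ Γ1 ∩ Γ2)) ∪ (Icc 1 (4 * Z3) ∪ (Icc (4 * Z3) n \ Γ3))) := by
      intro u hu
      by_cases h2 : u ∈ Γ0 ∩ Γ1 ∩ Γ2
      · by_cases h3 : u ∈ Γ3
        · exact mem_union_left _ (mem_inter.2 ⟨h2, h3⟩)
        · refine mem_union_right _ (mem_union_right _ ?_)
          rw [mem_Icc] at hu
          by_cases h4 : u ≤ 4 * Z3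
          · exact mem_union_left _ (mem_Icc.2 ⟨hu.1, h4⟩)
          · exact mem_union_right _ (mem_sdiff.2 ⟨mem_Icc.2 ⟨by omega, hu.2⟩, h3⟩)
      · exact mem_union_right _ (mem_union_left _ (mem_sdiff.2 ⟨hu, h2⟩))
    have h2 := card_le_card h1
    have h3 := h2.trans ((card_union_le _ _).trans (Nat.add_le_add_left ((card_union_le _ _).trans (Nat.add_le_add_left (card_union_le _ _) _)) _))
    rw [Nat.card_Icc, Nat.card_Icc] at h3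
    have h4 : (n : ℝ) ≤ (Γ0 ∩ Γ1 ∩ Γ2 ∩ Γ3).card + (((Icc 1 n \ (Γ0 ∩ Γ1 ∩ Γ2)).card : ℝ) + (4 * Z3 + ((Icc (4 * Z3) n \ Γ3).card : ℝ))) := by
      have h5 : n + 1 - 1 = n := by omega
      have h6 : 4 * Z3 + 1 - 1 = 4 * Z3 := by omega
      rw [h5, h6] at h3
      exact_mod_cast h3
    have h5 := E0_co hT
    have h6 := hΓ3.co
    have h7 : (524 : ℝ) * (n : ℝ) ^ (1 - B / 8) ≤ (n : ℝ) ^ (1 - B / 10) := hN.cst (by norm_num) (by linarith)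
    linarith
  · intro u hu
    have hu3 := (mem_inter.1 hu).2
    have h1 := hΓ3.al u hu3
    have h2 : (nb Z3 u).card ≤ hdeg n u := by
      unfold nb hdeg
      refine card_le_card fun y hy => ?_
      rw [mem_filter, mem_Ico] at hy
      have h3 := hΓ3.sub hu3
      rw [mem_Icc] at h3
      rw [mem_filter, mem_Icc]
      exact ⟨⟨by omega, by omega⟩, hy.2⟩
    have h2' : ((nb Z3 u).card : ℝ) ≤ hdeg n u := by exact_mod_cast h2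
    have h3 : (n : ℝ) ^ (1 - B / 8) * (n : ℝ) ^ (-(4 * b)) ≤ (Z3 : ℝ) * (n : ℝ) ^ (-(4 * b)) :=
      mul_le_mul_of_nonneg_right hlo3 (hN.ppos _).le
    rw [hN.mul] at h3
    have h4 : (n : ℝ) ^ (1 - 17 * B / 100) ≤ (n : ℝ) ^ (1 - B / 8 + -(4 * b)) := hN.mono (by linarith)
    linarith
  · intro u hu v hv
    have hu' := mem_inter.1 (mem_inter.1 hu).1
    have hv' := mem_inter.1 (mem_inter.1 hv).1
    have hu'' := mem_inter.1 hu'.1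
    have hv'' := mem_inter.1 hv'.1
    exact C6 hlo hT hu''.1 hu''.2 hu'.2 hv''.1 hv''.2 hv'.2
  · intro u hu v hv hdu hdv
    refine E0 hlo hT (t' := (n : ℝ) ^ (1 - 3 * B / 2)) (r := (n : ℝ) ^ (1 - B / 5)) ?_ ?_ ?_ ?_ hu hv hdu hdv
    · intro u hu v hv hST hru hrv
      exact D1 hlo hN h hM0 hlo0 hu hv hru hrv hST
    · exact hN.mono (by linarith)
    · have h7 : (519 : ℝ) * (n : ℝ) ^ (1 - B) ≤ (n : ℝ) ^ (1 - B / 5) := hN.cst (by norm_num) (by linarith)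
      linarith
    · have h7 : (9 : ℝ) * (n : ℝ) ^ (1 - B) ≤ (n : ℝ) ^ (1 - B / 5) := hN.cst (by norm_num) (by linarith)
      have h8 : (n : ℝ) ^ (1 - 3 * B / 2) ≤ (n : ℝ) ^ (1 - B) := hN.mono (by linarith)
      linarith

end Pool.Agent.Lib.H96G
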