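import Pool.Agent.Lib.H96G.E2

/-!
# Project H96G: conclusion of module G
-/

open Finset

namespace Pool.Agent.Lib.H96G

open Pool.Agent.Goldbach

/-- The input at all large sizes implies the theorem on both families of Goldbach graphs. -/
theorem final (c0 : ℝ) (hc0 : 0 < c0) (n1 : ℕ)
    (h : ∀ n : ℕ, n1 ≤ n → ∃ (M : ℕ) (L : ℕ → ℤ → ℝ) (c B b : ℝ), c0 ≤ b ∧ GIn n M L c B b) :
    ∃ δ0 : ℝ, 0 < δ0 ∧ ∃ N : ℕ, ∀ n ≥ N, ∃ δ : ℝ, δ0 ≤ δ ∧ δ ≤ 1 / 2 ∧
      Fin5 n δ (goldbachGraph n) ∧ Fin5 n δ (nearGoldbachGraph n) := by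
  obtain ⟨n2, hn2⟩ := nm_ev c0 hc0
  refine ⟨100 * c0 / 11, by positivity, max n1 (max n2 1), fun n hn => ?_⟩
  have h1 : n1 ≤ n := le_trans (le_max_left _ _) hn
  have h2 : n2 ≤ n := le_trans (le_trans (le_max_left _ _) (le_max_right _ _)) hn
  have h3 : 1 ≤ n := le_trans (le_trans (le_max_right _ _) (le_max_right _ _)) hn
  obtain ⟨M, L, c, B, b, hb, hG⟩ := h n h1
  have hN := hn2 n h2 b hb
  have hB1 := hG.hb
  have hB2 := hG.hB
  have hc1 := hG.hc
  refine ⟨B / 11, by linarith, by linarith, ?_, ?_⟩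
  · exact E2 (lo := 0) h3 (by norm_num) hN hG.hb (by linarith) (E1 (by norm_num) hN hG)
      (fun a ha => ha) (fun a _ => by simp)
      (fun x hx => by
        rw [Finset.mem_Icc] at hx
        exact ⟨even_two_mul x, by omega⟩)
      (fun m h1 h2 h3 => ⟨h1, h2, h3⟩) (fun m hm => Or.inr ⟨hm.1, hm.2.1⟩)
  · exact E2 (lo := 1) h3 le_rfl hN hG.hb (by linarith) (E1 le_rfl hN hG)
      (fun a ha => ⟨ha.1, ha.2.2⟩) (fun a ha => by have := ha.2.1; omega)
      (fun x hx => by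
        rw [Finset.mem_Icc] at hx
        exact ⟨even_two_mul x, by omega, by omega⟩)
      (fun m h1 h2 h3 => Or.inr ⟨h1, h2, h3⟩) (fun m hm => by
        rcases hm with hm | hm
        · exact Or.inl hm
        · exact Or.inr ⟨hm.1, hm.2.1⟩)

end Pool.Agent.Lib.H96G
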